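import Mathlib

set_option autoImplicit false

namespace Pool.Agent.H.MP_2655df_gt

open Filter Topology Set

abbrev V := (ℝ × ℝ) × ℝ

def dot (α z : V) : ℝ := α.1.1 * z.1.1 + α.1.2 * z.1.2 + α.2 * z.2

@[simp] lemma dot_add (α z w : V) : dot α (z + w) = dot α z + dot α w := by
  simp [dot]; ring
@[simp] lemma dot_sub (α z w : V) : dot α (z - w) = dot α z - dot α w := by
  simp [dot]; ring
@[simp] lemma dot_neg (α z : V) : dot α (-z) = - dot α z := by
  simp [dot]; ring
@[simp] lemma dot_smul (α z : V) (t : ℝ) : dot α (t • z) = t * dot α z := by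
  simp [dot]; ring
@[simp] lemma dot_zero (α : V) : dot α 0 = 0 := by
  simp [dot]
@[simp] lemma smul_dot (α z : V) (t : ℝ) : dot (t • α) z = t * dot α z := by
  simp [dot]; ring
@[simp] lemma sub_dot (α β z : V) : dot (α - β) z = dot α z - dot β z := by
  simp [dot]; ring

def det3 (a b c : V) : ℝ :=
  a.1.1 * (b.1.2 * c.2 - b.2 * c.1.2) - a.1.2 * (b.1.1 * c.2 - b.2 * c.1.1)
    + a.2 * (b.1.1 * c.1.2 - b.1.2 * c.1.1)

structure Cone (C : Set V) : Prop where
  smul : ∀ v ∈ C, ∀ t : ℝ, 0 < t → t • v ∈ C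
  add : ∀ v ∈ C, ∀ w ∈ C, v + w ∈ C
  op : IsOpen C
  pos : ∀ v ∈ C, 0 < v.2
  bd : ∃ R : ℝ, ∀ v ∈ C, |v.1.1| ≤ R * v.2 ∧ |v.1.2| ≤ R * v.2

def Adm (C : Set V) (α : V) : Prop := ∀ z ∈ C, 0 < dot α z

def ND (C : Set V) (O α : V) : Prop := Adm C α ∧ dot α O = 1

noncomputable def M (C : Set V) (O v : V) : ℝ := sInf {t : ℝ | t • O - v ∈ C}

variable {C : Set V}

lemma Cone.small (hC : Cone C) {O : V} (hO : O ∈ C) (v : V) :
    ∃ δ : ℝ, 0 < δ ∧ ∀ ε : ℝ, |ε| < δ → O + ε • v ∈ C := by
  have hc : Continuous (fun ε : ℝ => O + ε • v) := by fun_prop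
  have h : (fun ε : ℝ => O + ε • v) ⁻¹' C ∈ 𝓝 (0 : ℝ) := by
    apply hc.continuousAt.preimage_mem_nhds
    simpa using hC.op.mem_nhds hO
  obtain ⟨δ, hδ, h2⟩ := Metric.mem_nhds_iff.1 h
  refine ⟨δ, hδ, fun ε hε => h2 ?_⟩
  simpa [Real.dist_eq] using hε

lemma Cone.convex (hC : Cone C) : Convex ℝ C := by
  intro x hx y hy a b ha hb hab
  rcases ha.eq_or_lt with ha | ha
  · subst ha; simp at hab; subst hab; simpa using hy
  rcases hb.eq_or_lt with hb | hb
  · subst hb; simp at hab; subst hab; simpa using hx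
  exact hC.add _ (hC.smul _ hx _ ha) _ (hC.smul _ hy _ hb)

lemma Cone.mem_iff (hC : Cone C) {O : V} (hO : O ∈ C) (v : V) (t : ℝ) :
    t • O - v ∈ C ↔ M C O v < t := by
  have hbdd : BddBelow {t : ℝ | t • O - v ∈ C} := by
    refine ⟨v.2 / O.2, fun t ht => ?_⟩
    have h1 := hC.pos _ ht
    have h2 := hC.pos _ hO
    simp at h1
    rw [div_le_iff₀ h2]; linarith
  constructor
  · intro ht
    obtain ⟨δ, hδ, h⟩ := hC.small ht O
    have h1 := h (-(δ / 2)) (by rw [abs_neg, abs_of_pos (by linarith)]; linarith)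
    have h2 : t - δ / 2 ∈ {t : ℝ | t • O - v ∈ C} := by
      show (t - δ / 2) • O - v ∈ C
      convert h1 using 1
      module
    have := csInf_le hbdd h2
    unfold M; linarith
  · intro ht
    have hne : {t : ℝ | t • O - v ∈ C}.Nonempty := by
      obtain ⟨δ, hδ, h⟩ := hC.small hO (-v)
      have h1 := h (δ / 2) (by rw [abs_of_pos (by linarith)]; linarith)
      refine ⟨2 / δ, ?_⟩
      show (2 / δ) • O - v ∈ C
      have := hC.smul _ h1 (2 / δ) (by positivity)
      convert this using 1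
      rw [smul_add, smul_smul]
      have : 2 / δ * (δ / 2) = 1 := by field_simp
      rw [this]; module
    obtain ⟨s, hs, hst⟩ := exists_lt_of_csInf_lt hne ht
    have := hC.add _ hs _ (hC.smul _ hO (t - s) (by linarith))
    convert this using 1
    module

lemma Cone.M_eq (hC : Cone C) {O : V} (hO : O ∈ C) {v : V} {m : ℝ}
    (h : ∀ t : ℝ, t • O - v ∈ C ↔ m < t) : M C O v = m := by
  apply le_antisymm
  · by_contra h1
    push Not at h1
    have := (h ((m + M C O v) / 2)).2 (by linarith)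
    rw [hC.mem_iff hO] at this; linarith
  · by_contra h1
    push Not at h1
    have := (hC.mem_iff hO v ((m + M C O v) / 2)).2 (by linarith)
    rw [h] at this; linarith

lemma Cone.le_M (hC : Cone C) {O α : V} (hO : O ∈ C) (hα : Adm C α) (v : V) :
    dot α v ≤ M C O v * dot α O := by
  have h0 := hα O hO
  have : dot α v / dot α O ≤ M C O v := by
    apply le_of_forall_gt_imp_ge_of_dense
    intro t ht
    have := hα _ ((hC.mem_iff hO v t).2 ht)
    simp at this
    rw [div_le_iff₀ h0]; linarith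
  rwa [div_le_iff₀ h0] at this

lemma Cone.M_ge (hC : Cone C) {O α : V} (hO : O ∈ C) (hα : ND C O α) (v : V) :
    dot α v ≤ M C O v := by
  have := hC.le_M hO hα.1 v
  rwa [hα.2, mul_one] at this

lemma Cone.adm_of_nonneg (hC : Cone C) {O α : V} (h1 : 0 < dot α O)
    (h : ∀ z ∈ C, 0 ≤ dot α z) : Adm C α := by
  intro z hz
  obtain ⟨δ, hδ, h2⟩ := hC.small hz O
  have := h _ (h2 (-(δ / 2)) (by rw [abs_neg, abs_of_pos (by linarith)]; linarith))
  simp at this
  have h3 : 0 < δ / 2 * dot α O := by positivity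
  linarith

lemma Cone.M_att (hC : Cone C) {O : V} (hO : O ∈ C) (v : V) :
    ∃ α, ND C O α ∧ dot α v = M C O v := by
  have hE : M C O v • O - v ∉ C := by rw [hC.mem_iff hO]; exact lt_irrefl _
  obtain ⟨f, hf⟩ := geometric_hahn_banach_open_point hC.convex hC.op hE
  set E := M C O v • O - v with hEdef
  let a : V := ((-f ((1, 0), 0), -f ((0, 1), 0)), -f ((0, 0), 1))
  have ha : ∀ z : V, dot a z = - f z := by
    intro z
    have : z = z.1.1 • (((1, 0), 0) : V) + z.1.2 • (((0, 1), 0) : V) + z.2 • (((0, 0), 1) : V) := by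
      ext <;> simp
    conv_rhs => rw [this]
    simp only [map_add, map_smul, smul_eq_mul, dot, a]; ring
  have hle : ∀ z ∈ C, f z ≤ 0 := by
    intro z hz
    by_contra h
    push Not at h
    have h1 := hf _ (hC.smul _ hz ((|f E| + 1) / f z) (by positivity))
    rw [map_smul, smul_eq_mul, div_mul_cancel₀ _ h.ne'] at h1
    have := le_abs_self (f E)
    linarith
  have hE0 : f E ≤ 0 := by
    apply le_of_forall_pos_le_add
    intro ε hε
    have h1 := (hC.mem_iff hO v (M C O v + ε / (|f O| + 1))).2 (by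
      have : 0 < ε / (|f O| + 1) := by positivity
      linarith)
    have h2 : (M C O v + ε / (|f O| + 1)) • O - v = E + (ε / (|f O| + 1)) • O := by
      rw [hEdef]; module
    rw [h2] at h1
    have h3 := hle _ h1
    rw [map_add, map_smul, smul_eq_mul] at h3
    have h4 : -(ε / (|f O| + 1) * f O) ≤ ε := by
      have h5 : -f O ≤ |f O| + 1 := by have := neg_abs_le (f O); linarith
      have h6 : 0 < |f O| + 1 := by positivity
      calc -(ε / (|f O| + 1) * f O) = ε / (|f O| + 1) * (-f O) := by ring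
        _ ≤ ε / (|f O| + 1) * (|f O| + 1) := by gcongr
        _ = ε := by field_simp
    linarith
  have hE1 : 0 ≤ f E := by
    by_contra h
    push Not at h
    have hO1 := hf _ hO
    have hO2 : f O < 0 := by linarith
    have h1 := hf _ (hC.smul _ hO (f E / f O) (div_pos_of_neg_of_neg h hO2))
    rw [map_smul, smul_eq_mul, div_mul_cancel₀ _ hO2.ne] at h1
    exact lt_irrefl _ h1
  have hE2 : f E = 0 := le_antisymm hE0 hE1
  have hadm : Adm C a := by
    intro z hz
    have := hf z hz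
    rw [ha]; linarith
  have hO1 := hadm O hO
  refine ⟨(dot a O)⁻¹ • a, ⟨fun z hz => ?_, ?_⟩, ?_⟩
  · rw [smul_dot]; exact mul_pos (inv_pos.2 hO1) (hadm z hz)
  · rw [smul_dot]; exact inv_mul_cancel₀ hO1.ne'
  · have h1 : dot a E = 0 := by rw [ha, hE2]; simp
    rw [hEdef] at h1
    simp at h1
    rw [smul_dot]; field_simp; linarith

lemma Cone.M_smul (hC : Cone C) {O : V} (hO : O ∈ C) (v : V) {s : ℝ} (hs : 0 < s) :
    M C O (s • v) = s * M C O v := by
  apply le_antisymm
  · obtain ⟨α, h1, h2⟩ := hC.M_att hO (s • v)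
    rw [← h2, dot_smul]
    have := hC.M_ge hO h1 v
    gcongr
  · obtain ⟨α, h1, h2⟩ := hC.M_att hO v
    have := hC.M_ge hO h1 (s • v)
    rw [dot_smul, h2] at this; exact this

lemma Cone.line (hC : Cone C) {a v : V} (h : ∀ t : ℝ, 0 ≤ t → a + t • v ∈ C) (h0 : v.2 ≤ 0) :
    v = 0 := by
  obtain ⟨R, hR⟩ := hC.bd
  have ha : a ∈ C := by simpa using h 0 le_rfl
  have ha2 := hC.pos _ ha
  have h2 : v.2 = 0 := by
    by_contra h1
    have h3 : v.2 < 0 := lt_of_le_of_ne h0 h1
    have h4 := hC.pos _ (h (a.2 / (-v.2)) (div_nonneg ha2.le (by linarith)))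
    simp at h4
    have : a.2 / -v.2 * v.2 = -a.2 := by field_simp
    linarith
  have key : ∀ p q : ℝ, (∀ t : ℝ, 0 ≤ t → |p + t * q| ≤ R * a.2) → q = 0 := by
    intro p q hpq
    by_contra hq
    have hq' : 0 < |q| := abs_pos.2 hq
    have h5 := hpq ((|R * a.2| + |p| + 1) / |q|) (by positivity)
    have h6 : |(|R * a.2| + |p| + 1) / |q| * q| = |R * a.2| + |p| + 1 := by
      rw [abs_mul, abs_of_nonneg (by positivity)]; field_simp
    have h7 := abs_sub (p + (|R * a.2| + |p| + 1) / |q| * q) p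
    rw [add_sub_cancel_left, h6] at h7
    have := le_abs_self (R * a.2)
    linarith
  have e1 := key a.1.1 v.1.1 (fun t ht => by simpa [h2] using (hR _ (h t ht)).1)
  have e2 := key a.1.2 v.1.2 (fun t ht => by simpa [h2] using (hR _ (h t ht)).2)
  ext <;> simp [e1, e2, h2]

/-- the plane section spanned by `a, b` is cut out by `α, β` -/
def Ch (C : Set V) (α β a b : V) : Prop :=
  Adm C α ∧ Adm C β ∧ ∀ s t : ℝ, 0 < dot α (s • a + t • b) → 0 < dot β (s • a + t • b) →
    s • a + t • b ∈ C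

lemma Cone.ch (hC : Cone C) {O u α β : V} (hO : O ∈ C) (hα : Adm C α) (hβ : Adm C β)
    (h1 : dot α u = M C O u * dot α O) (h2 : dot β (-u) = M C O (-u) * dot β O) :
    Ch C α β O u := by
  refine ⟨hα, hβ, fun s t h3 h4 => ?_⟩
  have hαO := hα O hO
  have hβO := hβ O hO
  simp at h2 h3 h4
  rcases lt_trichotomy t 0 with ht | ht | ht
  · have h5 : (s / (-t)) • O - u ∈ C := by
      rw [hC.mem_iff hO, lt_div_iff₀ (by linarith)]
      rw [h1] at h3
      have : 0 < (s + t * M C O u) * dot α O := by linarith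
      have := (mul_pos_iff_of_pos_right hαO).1 this
      linarith
    have := hC.smul _ h5 (-t) (by linarith)
    convert this using 1
    rw [smul_sub, smul_smul, mul_div_cancel₀ _ (by linarith)]; module
  · subst ht
    simp at h3 ⊢
    exact hC.smul _ hO _ ((mul_pos_iff_of_pos_right hαO).1 h3)
  · have h5 : (s / t) • O - (-u) ∈ C := by
      rw [hC.mem_iff hO, lt_div_iff₀ ht]
      have h6 : dot β u = -(M C O (-u) * dot β O) := by linarith
      rw [h6] at h4
      have : 0 < (s - t * M C O (-u)) * dot β O := by linarith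
      have := (mul_pos_iff_of_pos_right hβO).1 this
      linarith
    have := hC.smul _ h5 t ht
    convert this using 1
    rw [smul_sub, smul_smul, mul_div_cancel₀ _ ht.ne']; module

lemma Ch.shift {α β O u : V} (h : Ch C α β O u) (ε : ℝ) : Ch C α β O (O + ε • u) := by
  refine ⟨h.1, h.2.1, fun s t h3 h4 => ?_⟩
  have e : s • O + t • (O + ε • u) = (s + t) • O + (t * ε) • u := by module
  rw [e] at h3 h4 ⊢
  exact h.2.2 _ _ h3 h4

lemma Ch.swap {α β a b : V} (h : Ch C α β a b) : Ch C α β b a := by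
  refine ⟨h.1, h.2.1, fun s t h3 h4 => ?_⟩
  rw [add_comm] at h3 h4 ⊢
  exact h.2.2 _ _ h3 h4

end Pool.Agent.H.MP_2655df_gt
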