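import Pool.Agent.H.MP_2655df_gt.A

set_option autoImplicit false

namespace Pool.Agent.H.MP_2655df_gt

open Filter Topology Set

def cone (Ω : Set (ℝ × ℝ)) : Set V := {v : V | 0 < v.2 ∧ (v.2)⁻¹ • v.1 ∈ Ω}

lemma mem_cone {Ω : Set (ℝ × ℝ)} (x : ℝ × ℝ) : ((x, 1) : V) ∈ cone Ω ↔ x ∈ Ω := by
  simp [cone]

lemma cone_ok {Ω : Set (ℝ × ℝ)} (h1 : IsOpen Ω) (h2 : Convex ℝ Ω) (h3 : Bornology.IsBounded Ω) :
    Cone (cone Ω) where
  smul := by
    rintro v ⟨hv, hv2⟩ t ht
    refine ⟨by simpa using mul_pos ht hv, ?_⟩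
    convert hv2 using 1
    simp only [Prod.smul_snd, Prod.smul_fst, smul_eq_mul, smul_smul]
    congr 1; field_simp
  add := by
    rintro v ⟨hv, hv2⟩ w ⟨hw, hw2⟩
    have hs : 0 < v.2 + w.2 := by linarith
    refine ⟨by simpa using hs, ?_⟩
    have := h2 hv2 hw2 (a := v.2 / (v.2 + w.2)) (b := w.2 / (v.2 + w.2)) (by positivity)
      (by positivity) (by field_simp)
    convert this using 1
    simp only [Prod.snd_add, Prod.fst_add, smul_smul, smul_add]
    congr 2 <;> field_simp
  op := by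
    have ho : IsOpen {v : V | 0 < v.2} := isOpen_lt continuous_const continuous_snd
    have hc : ContinuousOn (fun v : V => (v.2)⁻¹ • v.1) {v : V | 0 < v.2} := by
      exact ContinuousOn.smul (f := fun v : V => (v.2)⁻¹) (g := fun v : V => v.1)
        (ContinuousOn.inv₀ continuous_snd.continuousOn (fun v hv => ne_of_gt hv))
        continuous_fst.continuousOn
    exact hc.isOpen_inter_preimage ho h1
  pos := fun v hv => hv.1
  bd := by
    obtain ⟨R, hR⟩ := h3.exists_norm_le
    refine ⟨R, fun v hv => ?_⟩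
    have h4 := hR _ hv.2
    have h5 := hv.1
    rw [norm_smul, Real.norm_eq_abs, abs_of_pos (inv_pos.2 h5), inv_mul_le_iff₀ h5] at h4
    have e1 := norm_fst_le v.1
    have e2 := norm_snd_le v.1
    rw [Real.norm_eq_abs] at e1 e2
    constructor <;> linarith

variable {C : Set V}

lemma Cone.ray (hC : Cone C) {X Y : V} (hX : X ∈ C) (hY : Y ∈ C) (h2 : X.2 = Y.2) (hne : X ≠ Y) :
    1 < M C X Y ∧ ∀ s : ℝ, -1 ≤ s → (X - s • (Y - X) ∈ C ↔ s < 1 / (M C X Y - 1)) := by
  have key : ∀ s : ℝ, 0 < s → (X - s • (Y - X) ∈ C ↔ s * (M C X Y - 1) < 1) := by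
    intro s hs
    have e : X - s • (Y - X) = s • (((1 + s) / s) • X - Y) := by
      rw [smul_sub s (((1 + s) / s) • X), smul_smul, mul_div_cancel₀ _ hs.ne']; module
    have e2 : s * (M C X Y - 1) < 1 ↔ M C X Y < (1 + s) / s := by
      rw [lt_div_iff₀ hs]; constructor <;> intro h <;> linarith
    rw [e, e2, ← hC.mem_iff hX]
    constructor
    · intro h
      have := hC.smul _ h s⁻¹ (inv_pos.2 hs)
      rwa [smul_smul, inv_mul_cancel₀ hs.ne', one_smul] at this
    · intro h; exact hC.smul _ h s hs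
  have h1 : 1 < M C X Y := by
    by_contra h
    push Not at h
    have : X - Y = 0 := by
      apply hC.line (a := X) _ (by simp [h2])
      intro t ht
      rcases ht.eq_or_lt with ht | ht
      · subst ht; simpa using hX
      have := (key t ht).2 (by nlinarith)
      convert this using 1; module
    exact hne (sub_eq_zero.1 this)
  refine ⟨h1, fun s hs => ?_⟩
  have hp : 0 < M C X Y - 1 := by linarith
  rcases le_or_gt s 0 with h | h
  · constructor
    · intro _; have : 0 < 1 / (M C X Y - 1) := by positivity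
      linarith
    · intro _
      have := hC.convex hX hY (a := 1 + s) (b := -s) (by linarith) (by linarith) (by ring)
      convert this using 1; module
  · rw [key s h, lt_div_iff₀ hp]

noncomputable def dd (Ω : Set (ℝ × ℝ)) (x y : ℝ × ℝ) : ℝ := (1 / 2) * Real.log
        (((1 + sSup {s : ℝ | 0 ≤ s ∧ x - s • (y - x) ∈ Ω}) *
            sSup {t : ℝ | 0 ≤ t ∧ x + t • (y - x) ∈ Ω}) /
          (sSup {s : ℝ | 0 ≤ s ∧ x - s • (y - x) ∈ Ω} *
            (sSup {t : ℝ | 0 ≤ t ∧ x + t • (y - x) ∈ Ω} - 1)))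

lemma Cone.M_self (hC : Cone C) {X : V} (hX : X ∈ C) : M C X X = 1 := by
  obtain ⟨α, h1, h2⟩ := hC.M_att hX X
  rw [← h2, h1.2]

lemma dd_eq {Ω : Set (ℝ × ℝ)} (hC : Cone (cone Ω)) {x y : ℝ × ℝ} (hx : x ∈ Ω) (hy : y ∈ Ω) :
    dd Ω x y = (1 / 2) * Real.log (M (cone Ω) (x, 1) (y, 1) * M (cone Ω) (y, 1) (x, 1)) := by
  have hX := (mem_cone x).2 hx
  have hY := (mem_cone y).2 hy
  by_cases hxy : x = y
  · subst hxy
    rw [hC.M_self hX]
    have e : {t : ℝ | 0 ≤ t ∧ x + t • (x - x) ∈ Ω} = Ici 0 := by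
      ext t; simp [hx]
    have e2 : sSup (Ici (0 : ℝ)) = 0 := Real.sSup_of_not_bddAbove (not_bddAbove_Ici 0)
    unfold dd
    rw [e, e2]; simp
  have hne : ((x, 1) : V) ≠ (y, 1) := fun h => hxy (congrArg Prod.fst h)
  obtain ⟨a1, a2⟩ := hC.ray hX hY rfl hne
  obtain ⟨b1, b2⟩ := hC.ray hY hX rfl hne.symm
  set ν := M (cone Ω) (x, 1) (y, 1)
  set ν' := M (cone Ω) (y, 1) (x, 1)
  have p1 : 0 < ν - 1 := by linarith
  have p2 : 0 < ν' - 1 := by linarith
  have e1 : {s : ℝ | 0 ≤ s ∧ x - s • (y - x) ∈ Ω} = Ico 0 (1 / (ν - 1)) := by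
    ext s
    simp only [mem_setOf_eq, mem_Ico]
    refine and_congr_right fun hs => ?_
    rw [← a2 s (by linarith), ← mem_cone]
    have : (((x, 1) : V) - s • (((y, 1) : V) - (x, 1))) = (x - s • (y - x), 1) := by
      ext <;> simp
    rw [this]
  have e2 : {t : ℝ | 0 ≤ t ∧ x + t • (y - x) ∈ Ω} = Ico 0 (1 / (ν' - 1) + 1) := by
    ext t
    simp only [mem_setOf_eq, mem_Ico]
    refine and_congr_right fun ht => ?_
    rw [← sub_lt_iff_lt_add, ← b2 (t - 1) (by linarith), ← mem_cone]
    have : (((y, 1) : V) - (t - 1) • (((x, 1) : V) - (y, 1))) = (x + t • (y - x), 1) := by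
      ext <;> simp <;> ring
    rw [this]
  unfold dd
  rw [e1, e2, csSup_Ico (by positivity), csSup_Ico (by positivity)]
  congr 2
  field_simp
  ring

lemma Cone.M_chord (hC : Cone C) {α β a b X Y : V} (h : Ch C α β a b) (hX : X ∈ C)
    (h1 : ∃ s t : ℝ, X = s • a + t • b) (h2 : ∃ s t : ℝ, Y = s • a + t • b) :
    M C X Y = max (dot α Y / dot α X) (dot β Y / dot β X) := by
  have pα := h.1 X hX
  have pβ := h.2.1 X hX
  apply le_antisymm
  · apply le_of_forall_gt_imp_ge_of_dense
    intro t ht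
    rw [max_lt_iff, div_lt_iff₀ pα, div_lt_iff₀ pβ] at ht
    apply le_of_lt
    rw [← hC.mem_iff hX]
    obtain ⟨s1, t1, e1⟩ := h1
    obtain ⟨s2, t2, e2⟩ := h2
    have e : t • X - Y = (t * s1 - s2) • a + (t * t1 - t2) • b := by rw [e1, e2]; module
    rw [e]
    apply h.2.2 <;> rw [← e] <;> simp <;> linarith [ht.1, ht.2]
  · rw [max_le_iff, div_le_iff₀ pα, div_le_iff₀ pβ]
    exact ⟨hC.le_M hX h.1 Y, hC.le_M hX h.2.1 Y⟩

noncomputable def L (α β X : V) : ℝ := Real.log (dot α X) - Real.log (dot β X)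

lemma Cone.log_ge (hC : Cone C) {α β X Y : V} (hα : Adm C α) (hβ : Adm C β) (hX : X ∈ C)
    (hY : Y ∈ C) : |L α β X - L α β Y| ≤ Real.log (M C X Y * M C Y X) := by
  have key : ∀ α β : V, Adm C α → Adm C β → L α β X - L α β Y ≤ Real.log (M C X Y * M C Y X) := by
    intro α β hα hβ
    have a1 := hα X hX
    have a2 := hα Y hY
    have b1 := hβ X hX
    have b2 := hβ Y hY
    have c1 := hC.le_M hX hβ Y
    have c2 := hC.le_M hY hα X
    rw [← div_le_iff₀ b1] at c1
    rw [← div_le_iff₀ a2] at c2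
    have e : L α β X - L α β Y = Real.log (dot β Y / dot β X * (dot α X / dot α Y)) := by
      rw [Real.log_mul (by positivity) (by positivity), Real.log_div b2.ne' b1.ne',
        Real.log_div a1.ne' a2.ne']
      unfold L; ring
    rw [e]
    apply Real.log_le_log (by positivity)
    exact mul_le_mul c1 c2 (by positivity) (le_trans (by positivity) c1)
  rw [abs_le]
  constructor
  · have := key β α hβ hα
    unfold L at this ⊢; linarith
  · exact key α β hα hβ

lemma Cone.log_eq (hC : Cone C) {α β a b X Y : V} (h : Ch C α β a b) (hX : X ∈ C) (hY : Y ∈ C)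
    (h1 : ∃ s t : ℝ, X = s • a + t • b) (h2 : ∃ s t : ℝ, Y = s • a + t • b) :
    Real.log (M C X Y * M C Y X) = |L α β X - L α β Y| := by
  apply le_antisymm _ (hC.log_ge h.1 h.2.1 hX hY)
  rw [hC.M_chord h hX h1 h2, hC.M_chord h hY h2 h1]
  have a1 := h.1 X hX
  have a2 := h.1 Y hY
  have b1 := h.2.1 X hX
  have b2 := h.2.1 Y hY
  rcases le_total (dot α Y / dot α X) (dot β Y / dot β X) with hh | hh
  · have hh' : dot β X / dot β Y ≤ dot α X / dot α Y := by
      rw [div_le_div_iff₀ a1 b1] at hh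
      rw [div_le_div_iff₀ b2 a2]; linarith
    rw [max_eq_right hh, max_eq_left hh', Real.log_mul (by positivity) (by positivity),
      Real.log_div b2.ne' b1.ne', Real.log_div a1.ne' a2.ne']
    refine le_trans (le_of_eq ?_) (le_abs_self _)
    unfold L; ring
  · have hh' : dot α X / dot α Y ≤ dot β X / dot β Y := by
      rw [div_le_div_iff₀ b1 a1] at hh
      rw [div_le_div_iff₀ a2 b2]; linarith
    rw [max_eq_left hh, max_eq_right hh', Real.log_mul (by positivity) (by positivity),
      Real.log_div b1.ne' b2.ne', Real.log_div a2.ne' a1.ne']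
    refine le_trans (le_of_eq ?_) (neg_le_abs _)
    unfold L; ring

lemma Cone.cross_ne (hC : Cone C) {α β a b : V} (h : Ch C α β a b) (ha : a ∈ C) (hb : b ∈ C)
    (h2 : a.2 = b.2) (hne : a ≠ b) : dot α a * dot β b ≠ dot α b * dot β a := by
  intro he
  have a1 := h.1 a ha
  have a2 := h.1 b hb
  have b1 := h.2.1 a ha
  have key : ∀ t : ℝ, a + t • (dot α b • a - dot α a • b) ∈ C := by
    intro t
    have e : a + t • (dot α b • a - dot α a • b) = (1 + t * dot α b) • a + (-(t * dot α a)) • b := by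
      module
    rw [e]
    apply h.2.2
    · simp; nlinarith
    · simp
      have : t * dot α a * dot β b = t * (dot α b * dot β a) := by rw [← he]; ring
      nlinarith
  have hz : dot α b • a - dot α a • b = 0 := by
    rcases le_total (dot α b • a - dot α a • b).2 0 with h0 | h0
    · exact hC.line (fun t _ => key t) h0
    · have : -(dot α b • a - dot α a • b) = 0 := by
        apply hC.line (a := a)
        · intro t _
          have := key (-t)
          convert this using 1; module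
        · simpa using h0
      exact neg_eq_zero.1 this
  have h3 := congrArg Prod.snd hz
  simp [h2] at h3
  have hb2 := hC.pos b hb
  have h4 : dot α b = dot α a := by
    have : (dot α b - dot α a) * b.2 = 0 := by linarith
    rcases mul_eq_zero.1 this with h | h
    · linarith
    · linarith
  rw [h4, ← smul_sub, smul_eq_zero] at hz
  rcases hz with h | h
  · linarith
  · exact hne (sub_eq_zero.1 h)

end Pool.Agent.H.MP_2655df_gt
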