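import Pool.Agent.H.MP_2655df_gt.B

set_option autoImplicit false

namespace Pool.Agent.H.MP_2655df_gt

open Filter Topology Set

def RR (Ω : Set (ℝ × ℝ)) (a b : ℝ × ℝ) (ℓ : AffineSubspace ℝ (ℝ × ℝ)) : Prop :=
  Module.finrank ℝ ℓ.direction = 1 ∧
    ∃ m ∈ segment ℝ a b, dd Ω a m = dd Ω m b ∧ m ∈ ℓ ∧
      ∀ x ∈ affineSpan ℝ {a, b}, x ∈ Ω → ∀ z ∈ ℓ, z ∈ Ω → dd Ω x m ≤ dd Ω x z

lemma L_of_zero {C : Set V} {α β Z : V} {μ : ℝ} (hμ : 0 < μ) (hβ : Adm C β) (hZ : Z ∈ C)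
    (h : dot (α - μ • β) Z = 0) : L α β Z = Real.log μ := by
  have b := hβ Z hZ
  simp at h
  have : dot α Z = μ * dot β Z := by linarith
  unfold L
  rw [this, Real.log_mul hμ.ne' b.ne']; ring

lemma side {Ω : Set (ℝ × ℝ)} (hC : Cone (cone Ω)) (hconv : Convex ℝ Ω) {x y : ℝ × ℝ}
    (hx : x ∈ Ω) (hy : y ∈ Ω) (hne : x ≠ y) {α β : V} (h : Ch (cone Ω) α β (x, 1) (y, 1))
    {μ : ℝ} (hμ : 0 < μ)
    (hμ2 : μ ^ 2 * (dot β (x, 1) * dot β (y, 1)) = dot α (x, 1) * dot α (y, 1)) :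
    ∃ ℓ, RR Ω x y ℓ ∧ (∀ z ∈ ℓ, dot (α - μ • β) (z, 1) = 0) ∧
      (∀ e ∈ ℓ.direction, dot (α - μ • β) (e, 0) = 0) ∧ ∃ e ∈ ℓ.direction, e ≠ 0 := by
  have hX := (mem_cone x).2 hx
  have hY := (mem_cone y).2 hy
  have hne' : ((x, 1) : V) ≠ (y, 1) := fun h => hne (congrArg Prod.fst h)
  have hcr := hC.cross_ne h hX hY rfl hne'
  have a1 := h.1 _ hX
  have a2 := h.1 _ hY
  have b1 := h.2.1 _ hX
  have b2 := h.2.1 _ hY
  set η := α - μ • β with hη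
  have hneg : dot η (x, 1) * dot η (y, 1) < 0 := by
    simp only [hη, sub_dot, smul_dot]
    set p := dot α (x, 1) * dot β (y, 1) with hp
    set q := dot α (y, 1) * dot β (x, 1) with hq
    set g := μ * (dot β (x, 1) * dot β (y, 1)) with hg
    have g0 : 0 < g := by positivity
    have g2 : g ^ 2 = p * q := by
      rw [hg, hp, hq]
      linear_combination (dot β (x, 1) * dot β (y, 1)) * hμ2
    have hpq : 0 < (p - q) ^ 2 := by
      have : p - q ≠ 0 := sub_ne_zero.2 hcr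
      positivity
    have p0 : 0 < p := by positivity
    have q0 : 0 < q := by positivity
    have h3 : 2 * g < p + q := by
      apply lt_of_pow_lt_pow_left₀ 2 (by positivity)
      nlinarith
    have e : (dot α (x, 1) - μ * dot β (x, 1)) * (dot α (y, 1) - μ * dot β (y, 1))
        = μ * (2 * g - (p + q)) := by
      rw [hg, hp, hq]; linear_combination (-1 : ℝ) * hμ2
    rw [e]
    exact mul_neg_of_pos_of_neg hμ (by linarith)
  have hdne : dot η (x, 1) - dot η (y, 1) ≠ 0 := by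
    intro h0
    have : dot η (x, 1) = dot η (y, 1) := by linarith
    rw [this] at hneg; nlinarith [mul_self_nonneg (dot η (y, 1))]
  set θ := dot η (x, 1) / (dot η (x, 1) - dot η (y, 1)) with hθ
  have hθ0 : 0 ≤ θ := by
    rw [hθ]
    rcases lt_or_gt_of_ne hdne with h0 | h0
    · apply div_nonneg_of_nonpos _ h0.le
      by_contra h1; push Not at h1; nlinarith
    · apply div_nonneg _ h0.le
      by_contra h1; push Not at h1; nlinarith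
  have hθ1 : θ ≤ 1 := by
    rw [hθ]
    rcases lt_or_gt_of_ne hdne with h0 | h0
    · rw [div_le_one_of_neg h0]
      by_contra h1; push Not at h1; nlinarith
    · rw [div_le_one h0]
      by_contra h1; push Not at h1; nlinarith
  set m : ℝ × ℝ := (1 - θ) • x + θ • y with hm
  have hmseg : m ∈ segment ℝ x y := ⟨1 - θ, θ, by linarith, hθ0, by ring, rfl⟩
  have hmΩ : m ∈ Ω := hconv.segment_subset hx hy hmseg
  have hM := (mem_cone m).2 hmΩ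
  have hMe : ((m, 1) : V) = (1 - θ) • ((x, 1) : V) + θ • ((y, 1) : V) := by
    ext <;> simp [hm]
  have hm0 : dot η (m, 1) = 0 := by
    rw [hMe, dot_add, dot_smul, dot_smul, hθ]; field_simp; ring
  set e : ℝ × ℝ := (-η.1.2, η.1.1) with he
  have he0 : e ≠ 0 := by
    intro h0
    have h1 : η.1.2 = 0 := by simpa [he] using congrArg Prod.fst h0
    have h2 : η.1.1 = 0 := by simpa [he] using congrArg Prod.snd h0
    apply hdne
    simp [dot, h1, h2]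
  have hdir : ∀ v ∈ (ℝ ∙ e), dot η (v, 0) = 0 := by
    intro v hv
    obtain ⟨c, rfl⟩ := Submodule.mem_span_singleton.1 hv
    simp [dot, he]; ring
  have hon : ∀ z ∈ AffineSubspace.mk' m (ℝ ∙ e), dot η (z, 1) = 0 := by
    intro z hz
    rw [AffineSubspace.mem_mk'] at hz
    have h1 := hdir _ hz
    have : ((z, 1) : V) = (m, 1) + (z -ᵥ m, 0) := by ext <;> simp
    rw [this, dot_add, hm0, h1]; simp
  have sx : ∃ s t : ℝ, ((x, 1) : V) = s • ((x, 1) : V) + t • ((y, 1) : V) := ⟨1, 0, by simp⟩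
  have sy : ∃ s t : ℝ, ((y, 1) : V) = s • ((x, 1) : V) + t • ((y, 1) : V) := ⟨0, 1, by simp⟩
  have sm : ∃ s t : ℝ, ((m, 1) : V) = s • ((x, 1) : V) + t • ((y, 1) : V) := ⟨_, _, hMe⟩
  have Lm := L_of_zero hμ h.2.1 hM hm0
  have Lxy : L α β (x, 1) + L α β (y, 1) = 2 * Real.log μ := by
    have h1 := congrArg Real.log hμ2
    rw [Real.log_mul (by positivity) (by positivity), Real.log_mul b1.ne' b2.ne',
      Real.log_mul a1.ne' a2.ne', Real.log_pow] at h1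
    unfold L; push_cast at h1; linarith
  refine ⟨AffineSubspace.mk' m (ℝ ∙ e), ⟨?_, m, hmseg, ?_, AffineSubspace.self_mem_mk' _ _, ?_⟩,
    hon, ?_, e, ?_, he0⟩
  · rw [AffineSubspace.direction_mk']; exact finrank_span_singleton he0
  · rw [dd_eq hC hx hmΩ, dd_eq hC hmΩ hy, hC.log_eq h hX hM sx sm, hC.log_eq h hM hY sm sy, Lm]
    congr 2; linarith
  · intro w hw hwΩ z hz hzΩ
    have hW := (mem_cone w).2 hwΩ
    have hZ := (mem_cone z).2 hzΩ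
    have sw : ∃ s t : ℝ, ((w, 1) : V) = s • ((x, 1) : V) + t • ((y, 1) : V) := by
      obtain ⟨r, hr⟩ := mem_affineSpan_pair_iff_exists_lineMap_eq.1 hw
      refine ⟨1 - r, r, ?_⟩
      rw [← hr]
      ext <;> simp [AffineMap.lineMap_apply] <;> ring
    rw [dd_eq hC hwΩ hmΩ, dd_eq hC hwΩ hzΩ, hC.log_eq h hW hM sw sm, Lm,
      ← L_of_zero hμ h.2.1 hZ (hon z hz)]
    have := hC.log_ge h.1 h.2.1 hW hZ
    linarith
  · rw [AffineSubspace.direction_mk']; exact hdir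
  · rw [AffineSubspace.direction_mk']; exact Submodule.mem_span_singleton_self e

def Conc (C : Set V) : Prop :=
  ∀ a ∈ C, ∀ b ∈ C, ∀ c ∈ C, det3 a b c ≠ 0 → ∀ α₁ β₁ α₂ β₂ α₃ β₃ : V,
    Ch C α₁ β₁ a b → Ch C α₂ β₂ b c → Ch C α₃ β₃ c a → ∀ μ₁ μ₂ μ₃ : ℝ, 0 < μ₁ → 0 < μ₂ → 0 < μ₃ →
    μ₁ ^ 2 * (dot β₁ a * dot β₁ b) = dot α₁ a * dot α₁ b →
    μ₂ ^ 2 * (dot β₂ b * dot β₂ c) = dot α₂ b * dot α₂ c →
    μ₃ ^ 2 * (dot β₃ c * dot β₃ a) = dot α₃ c * dot α₃ a →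
    ∃ z : V, z ≠ 0 ∧ dot (α₁ - μ₁ • β₁) z = 0 ∧ dot (α₂ - μ₂ • β₂) z = 0 ∧
      dot (α₃ - μ₃ • β₃) z = 0

lemma Ch.scale {C : Set V} {α β a b : V} (h : Ch C α β a b) (p q : ℝ) :
    Ch C α β (p • a) (q • b) := by
  refine ⟨h.1, h.2.1, fun s t h3 h4 => ?_⟩
  rw [smul_smul, smul_smul] at h3 h4 ⊢
  exact h.2.2 _ _ h3 h4

lemma conc {Ω : Set (ℝ × ℝ)} (hC : Cone (cone Ω)) (hconv : Convex ℝ Ω)
    (H : ∀ a b c : ℝ × ℝ, a ∈ Ω → b ∈ Ω → c ∈ Ω → ¬ Collinear ℝ {a, b, c} →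
      ∀ ℓ₁ ℓ₂ ℓ₃ : AffineSubspace ℝ (ℝ × ℝ), RR Ω a b ℓ₁ → RR Ω b c ℓ₂ → RR Ω c a ℓ₃ →
        ((∃ p, p ∈ ℓ₁ ∧ p ∈ ℓ₂ ∧ p ∈ ℓ₃) ∨
          (ℓ₁.direction = ℓ₂.direction ∧ ℓ₂.direction = ℓ₃.direction))) :
    Conc (cone Ω) := by
  intro a ha b hb c hc hdet α₁ β₁ α₂ β₂ α₃ β₃ h1 h2 h3 μ₁ μ₂ μ₃ p1 p2 p3 q1 q2 q3
  have nz : ∀ v ∈ cone Ω, ((v.2⁻¹ • v.1, 1) : V) = v.2⁻¹ • v := by
    intro v hv
    have := hv.1
    ext <;> simp
    field_simp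
  have a0 := ha.1
  have b0 := hb.1
  have c0 := hc.1
  set x := a.2⁻¹ • a.1 with hx
  set y := b.2⁻¹ • b.1 with hy
  set w := c.2⁻¹ • c.1 with hw
  have hdet' : (y.1 - x.1) * (w.2 - x.2) - (y.2 - x.2) * (w.1 - x.1) ≠ 0 := by
    intro h0
    apply hdet
    simp only [hx, hy, hw, Prod.smul_fst, Prod.smul_snd, smul_eq_mul] at h0
    field_simp at h0
    apply mul_left_cancel₀ a0.ne'
    unfold det3
    linear_combination h0
  have hncol : ¬ Collinear ℝ {x, y, w} := by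
    intro hcol
    rw [collinear_iff_of_mem (p₀ := x) (by simp)] at hcol
    obtain ⟨v, hv⟩ := hcol
    obtain ⟨r1, e1⟩ := hv y (by simp)
    obtain ⟨r2, e2⟩ := hv w (by simp)
    apply hdet'
    rw [e1, e2]; simp; ring
  have n1 : x ≠ y := by intro h; apply hdet'; rw [h]; ring
  have n2 : y ≠ w := by intro h; apply hdet'; rw [h]; ring
  have n3 : w ≠ x := by intro h; apply hdet'; rw [h]; ring
  have ea := nz a ha
  have eb := nz b hb
  have ec := nz c hc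
  rw [← hx] at ea
  rw [← hy] at eb
  rw [← hw] at ec
  obtain ⟨ℓ₁, r1, s1, t1, e, he, he0⟩ := side hC hconv ha.2 hb.2 n1 (α := α₁) (β := β₁)
    (by rw [ea, eb]; exact h1.scale _ _) p1
    (by rw [ea, eb]; simp only [dot_smul]; linear_combination (a.2⁻¹ * b.2⁻¹) * q1)
  obtain ⟨ℓ₂, r2, s2, t2, -⟩ := side hC hconv hb.2 hc.2 n2 (α := α₂) (β := β₂)
    (by rw [eb, ec]; exact h2.scale _ _) p2
    (by rw [eb, ec]; simp only [dot_smul]; linear_combination (b.2⁻¹ * c.2⁻¹) * q2)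
  obtain ⟨ℓ₃, r3, s3, t3, -⟩ := side hC hconv hc.2 ha.2 n3 (α := α₃) (β := β₃)
    (by rw [ec, ea]; exact h3.scale _ _) p3
    (by rw [ec, ea]; simp only [dot_smul]; linear_combination (c.2⁻¹ * a.2⁻¹) * q3)
  rcases H x y w ha.2 hb.2 hc.2 hncol ℓ₁ ℓ₂ ℓ₃ r1 r2 r3 with ⟨p, k1, k2, k3⟩ | ⟨k1, k2⟩
  · refine ⟨(p, 1), fun h => ?_, s1 p k1, s2 p k2, s3 p k3⟩
    simpa using congrArg Prod.snd h
  · refine ⟨(e, 0), fun h => he0 ?_, t1 e he, t2 e (k1 ▸ he), t3 e (k2 ▸ k1 ▸ he)⟩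
    simpa using congrArg Prod.fst h

end Pool.Agent.H.MP_2655df_gt
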