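import Pool.Agent.H.MP_2655df_gt.C

set_option autoImplicit false

namespace Pool.Agent.H.MP_2655df_gt

open Filter Topology Set

variable {C : Set V}

def Ext (C : Set V) (O v α : V) : Prop := ND C O α ∧ dot α v = M C O v

lemma tend_dot {α : ℕ → V} {α₀ : V} (h : Tendsto α atTop (𝓝 α₀)) (z : V) :
    Tendsto (fun n => dot (α n) z) atTop (𝓝 (dot α₀ z)) := by
  have hc : Continuous (fun a : V => dot a z) := by unfold dot; fun_prop
  exact (hc.tendsto α₀).comp h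

lemma Cone.ex_at (hC : Cone C) {O b : V} (hO : O ∈ C) (hb : b ∈ C) (w : V) :
    ∃ α, ND C O α ∧ dot α w = M C b w * dot α b := by
  obtain ⟨α, h1, h2⟩ := hC.M_att hb w
  have p := h1.1 O hO
  refine ⟨(dot α O)⁻¹ • α, ⟨fun z hz => ?_, ?_⟩, ?_⟩
  · rw [smul_dot]; exact mul_pos (inv_pos.2 p) (h1.1 z hz)
  · rw [smul_dot]; exact inv_mul_cancel₀ p.ne'
  · rw [smul_dot, smul_dot, h2, h1.2]; ring

lemma Cone.nd_bdd (hC : Cone C) {O : V} (hO : O ∈ C) : Bornology.IsBounded {α | ND C O α} := by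
  have key : ∀ e : V, ∃ K : ℝ, ∀ α, ND C O α → |dot α e| ≤ K := by
    intro e
    refine ⟨max (M C O e) (M C O (-e)), fun α hα => ?_⟩
    have h1 := hC.M_ge hO hα e
    have h2 := hC.M_ge hO hα (-e)
    rw [dot_neg] at h2
    rw [abs_le]
    constructor
    · have := le_max_right (M C O e) (M C O (-e)); linarith
    · exact le_trans h1 (le_max_left _ _)
  obtain ⟨K1, h1⟩ := key ((1, 0), 0)
  obtain ⟨K2, h2⟩ := key ((0, 1), 0)
  obtain ⟨K3, h3⟩ := key ((0, 0), 1)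
  rw [isBounded_iff_forall_norm_le]
  refine ⟨max (max K1 K2) K3, fun α hα => ?_⟩
  have e1 := h1 α hα
  have e2 := h2 α hα
  have e3 := h3 α hα
  simp [dot] at e1 e2 e3
  rw [Prod.norm_def, Prod.norm_def]
  simp only [Real.norm_eq_abs]
  exact max_le_max (max_le_max e1 e2) e3

lemma Cone.lim_ext (hC : Cone C) {O u w α₀ : V} (hO : O ∈ C) {ε : ℕ → ℝ} {α : ℕ → V}
    (hε : Tendsto ε atTop (𝓝 0)) (hα : Tendsto α atTop (𝓝 α₀)) (h1 : ∀ n, ND C O (α n))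
    (hb : ∀ n, O + ε n • u ∈ C)
    (h2 : ∀ n, dot (α n) w = M C (O + ε n • u) w * dot (α n) (O + ε n • u)) : Ext C O w α₀ := by
  have e1 : dot α₀ O = 1 := by
    have := tend_dot hα O
    simp only [fun n => (h1 n).2] at this
    exact (tendsto_nhds_unique tendsto_const_nhds this).symm
  have hnd : ND C O α₀ := by
    refine ⟨hC.adm_of_nonneg (O := O) (by rw [e1]; norm_num) (fun z hz => ?_), e1⟩
    exact ge_of_tendsto' (tend_dot hα z) (fun n => ((h1 n).1 z hz).le)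
  refine ⟨hnd, le_antisymm (hC.M_ge hO hnd w) ?_⟩
  obtain ⟨γ, g1, g2⟩ := hC.M_att hO w
  have key : ∀ n, M C O w * (1 + ε n * dot (α n) u) ≤ dot (α n) w * (1 + ε n * dot γ u) := by
    intro n
    have k1 := hC.le_M (hb n) g1.1 w
    have k2 := (h1 n).1 _ (hb n)
    have k3 := h2 n
    simp only [dot_add, dot_smul, (h1 n).2, g1.2] at k1 k2 k3
    rw [k3, ← g2]
    nlinarith
  have l1 : Tendsto (fun n => M C O w * (1 + ε n * dot (α n) u)) atTop
      (𝓝 (M C O w * (1 + 0 * dot α₀ u))) :=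
    (((hε.mul (tend_dot hα u)).const_add 1).const_mul _)
  have l2 : Tendsto (fun n => dot (α n) w * (1 + ε n * dot γ u)) atTop
      (𝓝 (dot α₀ w * (1 + 0 * dot γ u))) :=
    (tend_dot hα w).mul ((hε.mul_const _).const_add 1)
  simpa using le_of_tendsto_of_tendsto' l1 l2 key

lemma det_zero {h1 h2 h3 z : V} (hz : z ≠ 0) (e1 : dot h1 z = 0) (e2 : dot h2 z = 0)
    (e3 : dot h3 z = 0) (O u v : V) :
    det3 ((dot h1 O, dot h1 u), dot h1 v) ((dot h2 O, dot h2 u), dot h2 v)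
      ((dot h3 O, dot h3 u), dot h3 v) = 0 := by
  have hd : det3 h1 h2 h3 = 0 := by
    by_contra hd
    apply hz
    unfold dot at e1 e2 e3
    have k1 : det3 h1 h2 h3 * z.1.1 = 0 := by
      unfold det3
      linear_combination (h2.1.2 * h3.2 - h2.2 * h3.1.2) * e1 - (h1.1.2 * h3.2 - h1.2 * h3.1.2) * e2
        + (h1.1.2 * h2.2 - h1.2 * h2.1.2) * e3
    have k2 : det3 h1 h2 h3 * z.1.2 = 0 := by
      unfold det3
      linear_combination -(h2.1.1 * h3.2 - h2.2 * h3.1.1) * e1 + (h1.1.1 * h3.2 - h1.2 * h3.1.1) * e2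
        - (h1.1.1 * h2.2 - h1.2 * h2.1.1) * e3
    have k3 : det3 h1 h2 h3 * z.2 = 0 := by
      unfold det3
      linear_combination (h2.1.1 * h3.1.2 - h2.1.2 * h3.1.1) * e1
        - (h1.1.1 * h3.1.2 - h1.1.2 * h3.1.1) * e2 + (h1.1.1 * h2.1.2 - h1.1.2 * h2.1.1) * e3
    ext
    · simpa [hd] using k1
    · simpa [hd] using k2
    · simpa [hd] using k3
  have : det3 ((dot h1 O, dot h1 u), dot h1 v) ((dot h2 O, dot h2 u), dot h2 v)
      ((dot h3 O, dot h3 u), dot h3 v) = det3 h1 h2 h3 * det3 O u v := by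
    simp only [det3, dot]; ring
  rw [this, hd, zero_mul]

lemma mu_lim {ε μ a1 a2 b1 b2 : ℕ → ℝ} {A1 A2 B1 B2 : ℝ} (hε : Tendsto ε atTop (𝓝 0))
    (hε0 : ∀ n, 0 < ε n) (h1 : Tendsto a1 atTop (𝓝 A1)) (h2 : Tendsto a2 atTop (𝓝 A2))
    (h3 : Tendsto b1 atTop (𝓝 B1)) (h4 : Tendsto b2 atTop (𝓝 B2)) (hμ : ∀ n, 0 < μ n)
    (p1 : ∀ n, 0 < 1 + ε n * b1 n) (p2 : ∀ n, 0 < 1 + ε n * b2 n)
    (he : ∀ n, μ n ^ 2 * ((1 + ε n * b1 n) * (1 + ε n * b2 n)) =
      (1 + ε n * a1 n) * (1 + ε n * a2 n)) :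
    Tendsto μ atTop (𝓝 1) ∧
      Tendsto (fun n => (1 - μ n) / ε n) atTop (𝓝 ((B1 + B2 - A1 - A2) / 2)) := by
  have t1 : Tendsto (fun n => 1 + ε n * a1 n) atTop (𝓝 1) := by
    simpa using (hε.mul h1).const_add 1
  have t2 : Tendsto (fun n => 1 + ε n * a2 n) atTop (𝓝 1) := by
    simpa using (hε.mul h2).const_add 1
  have t3 : Tendsto (fun n => 1 + ε n * b1 n) atTop (𝓝 1) := by
    simpa using (hε.mul h3).const_add 1
  have t4 : Tendsto (fun n => 1 + ε n * b2 n) atTop (𝓝 1) := by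
    simpa using (hε.mul h4).const_add 1
  have hμ1 : Tendsto μ atTop (𝓝 1) := by
    have e : μ = fun n => Real.sqrt (((1 + ε n * a1 n) * (1 + ε n * a2 n)) /
        ((1 + ε n * b1 n) * (1 + ε n * b2 n))) := by
      funext n
      have q1 := p1 n
      have q2 := p2 n
      rw [← he n, mul_div_assoc, div_self (by positivity), mul_one, Real.sqrt_sq (hμ n).le]
    rw [e]
    simpa using ((t1.mul t2).div (t3.mul t4) (by norm_num)).sqrt
  refine ⟨hμ1, ?_⟩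
  have e : (fun n => (1 - μ n) / ε n) = fun n =>
      (b1 n + b2 n - a1 n - a2 n + ε n * (b1 n * b2 n - a1 n * a2 n)) /
        ((1 + ε n * b1 n) * (1 + ε n * b2 n) * (1 + μ n)) := by
    funext n
    have q1 := p1 n
    have q2 := p2 n
    have q3 := hμ n
    have q4 := hε0 n
    rw [div_eq_div_iff q4.ne' (by positivity)]
    linear_combination (-1 : ℝ) * he n
  rw [e]
  have := (((((h3.add h4).sub h1).sub h2).add (hε.mul ((h3.mul h4).sub (h1.mul h2)))).div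
    ((t3.mul t4).mul (hμ1.const_add 1)) (by norm_num))
  have e2 : (B1 + B2 - A1 - A2) / 2 =
      (B1 + B2 - A1 - A2 + 0 * (B1 * B2 - A1 * A2)) / (1 * 1 * (1 + 1)) := by ring
  rw [e2]
  exact this

theorem Cone.T (hC : Cone C) (hK : Conc C) {O u v : V} (hO : O ∈ C) (hdet : det3 O u v ≠ 0)
    {α₁ β₁ α₂ β₂ : V} (x1 : Ext C O u α₁) (y1 : Ext C O (-u) β₁) (x2 : Ext C O v α₂)
    (y2 : Ext C O (-v) β₂) :
    ∃ α₃ β₃, Ext C O (v - u) α₃ ∧ Ext C O (-(v - u)) β₃ ∧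
      dot (α₁ - β₁) v * dot (α₂ - β₂) (v - u) * dot (α₃ - β₃) u =
        dot (α₂ - β₂) u * dot (α₁ - β₁) (v - u) * dot (α₃ - β₃) v := by
  obtain ⟨δ1, hδ1, k1⟩ := hC.small hO u
  obtain ⟨δ2, hδ2, k2⟩ := hC.small hO v
  set δ := min δ1 δ2 with hδ
  have hδ0 : 0 < δ := lt_min hδ1 hδ2
  let ε : ℕ → ℝ := fun n => δ / 2 * (1 / ((n : ℝ) + 1))
  have hε0 : ∀ n, 0 < ε n := fun n => by positivity
  have hεδ : ∀ n, |ε n| < δ := by
    intro n
    rw [abs_of_pos (hε0 n)]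
    have : 1 / ((n : ℝ) + 1) ≤ 1 := by
      rw [div_le_one (by positivity)]; linarith [Nat.cast_nonneg (α := ℝ) n]
    have : δ / 2 * (1 / ((n : ℝ) + 1)) ≤ δ / 2 * 1 := by gcongr
    show δ / 2 * (1 / ((n : ℝ) + 1)) < δ
    linarith
  have hε : Tendsto ε atTop (𝓝 0) := by
    have := (tendsto_one_div_add_atTop_nhds_zero_nat (𝕜 := ℝ)).const_mul (δ / 2)
    rw [mul_zero] at this
    exact this
  have hb : ∀ n, O + ε n • u ∈ C := fun n => k1 _ (lt_of_lt_of_le (hεδ n) (min_le_left _ _))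
  have hc : ∀ n, O + ε n • v ∈ C := fun n => k2 _ (lt_of_lt_of_le (hεδ n) (min_le_right _ _))
  choose α hα1 hα2 using fun n => hC.ex_at hO (hb n) (v - u)
  choose β hβ1 hβ2 using fun n => hC.ex_at hO (hb n) (-(v - u))
  obtain ⟨⟨α₃, β₃⟩, -, φ, hφ, hl⟩ := tendsto_subseq_of_bounded
    ((hC.nd_bdd hO).prod (hC.nd_bdd hO)) (x := fun n => (α n, β n)) (fun n => ⟨hα1 n, hβ1 n⟩)
  have lα : Tendsto (fun n => α (φ n)) atTop (𝓝 α₃) := (continuous_fst.tendsto _).comp hl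
  have lβ : Tendsto (fun n => β (φ n)) atTop (𝓝 β₃) := (continuous_snd.tendsto _).comp hl
  have lε : Tendsto (fun n => ε (φ n)) atTop (𝓝 0) := hε.comp hφ.tendsto_atTop
  refine ⟨α₃, β₃, hC.lim_ext hO lε lα (fun n => hα1 _) (fun n => hb _) (fun n => hα2 _),
    hC.lim_ext hO lε lβ (fun n => hβ1 _) (fun n => hb _) (fun n => hβ2 _), ?_⟩
  have c1 : Ch C α₁ β₁ O u := hC.ch hO x1.1.1 y1.1.1 (by rw [x1.2, x1.1.2, mul_one])
    (by rw [y1.2, y1.1.2, mul_one])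
  have c2 : Ch C α₂ β₂ O v := hC.ch hO x2.1.1 y2.1.1 (by rw [x2.2, x2.1.2, mul_one])
    (by rw [y2.2, y2.1.2, mul_one])
  have c3 : ∀ n, Ch C (α n) (β n) (O + ε n • u) (O + ε n • v) := by
    intro n
    have := (hC.ch (hb n) (hα1 n).1 (hβ1 n).1 (hα2 n) (hβ2 n)).shift (ε n)
    convert this using 1; module
  have sq : ∀ {γ η a b : V}, Adm C γ → Adm C η → a ∈ C → b ∈ C →
      0 < Real.sqrt (dot γ a * dot γ b / (dot η a * dot η b)) ∧
      Real.sqrt (dot γ a * dot γ b / (dot η a * dot η b)) ^ 2 * (dot η a * dot η b)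
        = dot γ a * dot γ b := by
    intro γ η a b g h ha hb
    have := g a ha
    have := g b hb
    have := h a ha
    have := h b hb
    refine ⟨by positivity, ?_⟩
    rw [Real.sq_sqrt (by positivity)]; field_simp
  choose μ₁ p1 q1 using fun n => (⟨_, sq x1.1.1 y1.1.1 hO (hb n)⟩ : ∃ μ : ℝ, 0 < μ ∧
    μ ^ 2 * (dot β₁ O * dot β₁ (O + ε n • u)) = dot α₁ O * dot α₁ (O + ε n • u))
  choose μ₂ p2 q2 using fun n => (⟨_, sq (hα1 n).1 (hβ1 n).1 (hb n) (hc n)⟩ : ∃ μ : ℝ, 0 < μ ∧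
    μ ^ 2 * (dot (β n) (O + ε n • u) * dot (β n) (O + ε n • v)) =
      dot (α n) (O + ε n • u) * dot (α n) (O + ε n • v))
  choose μ₃ p3 q3 using fun n => (⟨_, sq x2.1.1 y2.1.1 (hc n) hO⟩ : ∃ μ : ℝ, 0 < μ ∧
    μ ^ 2 * (dot β₂ (O + ε n • v) * dot β₂ O) = dot α₂ (O + ε n • v) * dot α₂ O)
  have key : ∀ n, det3 (((1 - μ₁ n) / ε n, dot α₁ u - μ₁ n * dot β₁ u), dot α₁ v - μ₁ n * dot β₁ v)
      (((1 - μ₂ n) / ε n, dot (α n) u - μ₂ n * dot (β n) u), dot (α n) v - μ₂ n * dot (β n) v)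
      (((1 - μ₃ n) / ε n, dot α₂ u - μ₃ n * dot β₂ u), dot α₂ v - μ₃ n * dot β₂ v) = 0 := by
    intro n
    have hd : det3 O (O + ε n • u) (O + ε n • v) ≠ 0 := by
      have : det3 O (O + ε n • u) (O + ε n • v) = ε n ^ 2 * det3 O u v := by
        simp [det3]; ring
      rw [this]; exact mul_ne_zero (pow_ne_zero 2 (hε0 n).ne') hdet
    obtain ⟨z, hz, z1, z2, z3⟩ := hK O hO _ (hb n) _ (hc n) hd α₁ β₁ (α n) (β n) α₂ β₂
      (c1.shift _) (c3 n) (c2.shift _).swap _ _ _ (p1 n) (p2 n) (p3 n) (q1 n) (q2 n) (q3 n)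
    have := det_zero hz z1 z2 z3 O u v
    simp only [sub_dot, smul_dot, x1.1.2, y1.1.2, x2.1.2, y2.1.2, (hα1 n).2, (hβ1 n).2] at this
    have e0 := (hε0 n).ne'
    simp only [det3] at this ⊢
    field_simp
    linear_combination this
  have cst : ∀ r : ℝ, Tendsto (fun _ : ℕ => r) atTop (𝓝 r) := fun r => tendsto_const_nhds
  have pos : ∀ {γ w : V} {e : ℝ}, ND C O γ → O + e • w ∈ C → 0 < 1 + e * dot γ w := by
    intro γ w e h1 h2
    have := h1.1 _ h2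
    simpa [h1.2] using this
  obtain ⟨m1, n1⟩ := mu_lim (μ := fun n => μ₁ (φ n)) lε (fun n => hε0 _) (cst 0) (cst (dot α₁ u))
    (cst 0) (cst (dot β₁ u)) (fun n => p1 _) (fun n => by simp) (fun n => pos y1.1 (hb _))
    (fun n => by simpa [x1.1.2, y1.1.2] using q1 (φ n))
  obtain ⟨m2, n2⟩ := mu_lim (μ := fun n => μ₂ (φ n)) lε (fun n => hε0 _) (tend_dot lα u)
    (tend_dot lα v) (tend_dot lβ u) (tend_dot lβ v) (fun n => p2 _)
    (fun n => pos (hβ1 _) (hb _)) (fun n => pos (hβ1 _) (hc _))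
    (fun n => by simpa [(hα1 _).2, (hβ1 _).2] using q2 (φ n))
  obtain ⟨m3, n3⟩ := mu_lim (μ := fun n => μ₃ (φ n)) lε (fun n => hε0 _) (cst (dot α₂ v)) (cst 0)
    (cst (dot β₂ v)) (cst 0) (fun n => p3 _) (fun n => pos y2.1 (hc _)) (fun n => by simp)
    (fun n => by simpa [x2.1.2, y2.1.2] using q3 (φ n))
  have hcont : Continuous (fun p : V × V × V => det3 p.1 p.2.1 p.2.2) := by
    unfold det3; fun_prop
  have l1 := ((n1.prodMk_nhds ((cst (dot α₁ u)).sub (m1.mul_const (dot β₁ u)))).prodMk_nhds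
    ((cst (dot α₁ v)).sub (m1.mul_const (dot β₁ v))))
  have l2 := ((n2.prodMk_nhds ((tend_dot lα u).sub (m2.mul (tend_dot lβ u)))).prodMk_nhds
    ((tend_dot lα v).sub (m2.mul (tend_dot lβ v))))
  have l3 := ((n3.prodMk_nhds ((cst (dot α₂ u)).sub (m3.mul_const (dot β₂ u)))).prodMk_nhds
    ((cst (dot α₂ v)).sub (m3.mul_const (dot β₂ v))))
  have l4 := (hcont.tendsto _).comp (l1.prodMk_nhds (l2.prodMk_nhds l3))
  have l6 := tendsto_nhds_unique (l4.congr (f₂ := fun _ => (0 : ℝ)) (fun n => key (φ n)))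
    tendsto_const_nhds
  simp only [det3] at l6
  simp only [sub_dot, dot_sub]
  linear_combination 2 * l6

end Pool.Agent.H.MP_2655df_gt
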