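import Mathlib

set_option autoImplicit false

namespace Pool.Agent.H.MP_2655df_gt

open Filter Topology Set

lemma le_of_div_nat {a c : ℝ} (N : ℕ) (h : ∀ n : ℕ, N ≤ n → a ≤ c * (1 / ((n : ℝ) + 1))) : a ≤ 0 := by
  have := (tendsto_one_div_add_atTop_nhds_zero_nat (𝕜 := ℝ)).const_mul c
  rw [mul_zero] at this
  exact ge_of_tendsto this (eventually_atTop.2 ⟨N, h⟩)

lemma telM {H : ℝ → ℝ} {κ : ℝ} (hκ : 0 ≤ κ) (hH : ∀ x, 0 ≤ H x)
    (h : ∀ x x', κ * (x - x') ^ 2 ≤ 1 → H x * (1 - κ * (x - x') ^ 2) ≤ H x') (x y : ℝ) :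
    H x ≤ H y := by
  obtain ⟨N, hN⟩ := exists_nat_ge (κ * (y - x) ^ 2)
  have : H x - H y ≤ 0 := by
    apply le_of_div_nat (c := H x * (κ * (y - x) ^ 2)) N
    intro n hn
    have n0 : (0 : ℝ) < (n : ℝ) + 1 := by positivity
    set d := (y - x) / ((n : ℝ) + 1) with hd
    have hnN : (N : ℝ) ≤ n := by exact_mod_cast hn
    have e1 : κ * d ^ 2 = κ * (y - x) ^ 2 / ((n : ℝ) + 1) ^ 2 := by rw [hd]; field_simp
    have hs : κ * d ^ 2 ≤ 1 := by
      rw [e1, div_le_one (by positivity)]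
      nlinarith [Nat.cast_nonneg (α := ℝ) n]
    have ind : ∀ k : ℕ, H x * (1 - κ * d ^ 2) ^ k ≤ H (x + k * d) := by
      intro k
      induction k with
      | zero => simp
      | succ k ih =>
        have e : (x + k * d - (x + ((k + 1 : ℕ) : ℝ) * d)) ^ 2 = d ^ 2 := by push_cast; ring
        have h1 := h (x + k * d) (x + ((k + 1 : ℕ) : ℝ) * d) (by rw [e]; exact hs)
        rw [e] at h1
        calc H x * (1 - κ * d ^ 2) ^ (k + 1) = H x * (1 - κ * d ^ 2) ^ k * (1 - κ * d ^ 2) := by ring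
          _ ≤ H (x + k * d) * (1 - κ * d ^ 2) := by
            apply mul_le_mul_of_nonneg_right ih (by linarith)
          _ ≤ _ := h1
    have h2 := ind (n + 1)
    have e2 : x + ((n + 1 : ℕ) : ℝ) * d = y := by rw [hd]; push_cast; field_simp; ring
    rw [e2] at h2
    have h3 := one_add_mul_le_pow (a := -(κ * d ^ 2)) (by linarith) (n + 1)
    have e3 : 1 + ((n + 1 : ℕ) : ℝ) * -(κ * d ^ 2) = 1 - κ * (y - x) ^ 2 * (1 / ((n : ℝ) + 1)) := by
      rw [e1]; push_cast; field_simp; ring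
    rw [e3, ← sub_eq_add_neg] at h3
    have h4 := mul_le_mul_of_nonneg_left h3 (hH x)
    nlinarith
  linarith

lemma quadR {f : ℝ → ℝ} {p q K c : ℝ} (hpq : 0 < p + q) (hf : ∀ x, 0 < f x) (hc : 0 < c)
    (hg : ∀ x, c * x ≤ f x)
    (h : ∀ x, ∃ g1 g2 : ℝ, q * g1 = p * x * g2 ∧ x * g1 + g2 = f x ∧
      (∀ x', x' * g1 + g2 ≤ f x') ∧ |g1| ≤ K ∧ |g2| ≤ K) :
    ∃ l₁ l₂ : ℝ, ∀ x, f x ^ 2 = l₁ * x ^ 2 + l₂ := by
  have hp0 : p ≠ 0 := by
    rintro rfl
    obtain ⟨g1, g2, e1, e2, -, -, e5⟩ := h ((K + 1) / c)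
    have hq : 0 < q := by linarith
    have : g1 = 0 := by
      have : q * g1 = 0 := by linarith
      rcases mul_eq_zero.1 this with h | h
      · linarith
      · exact h
    have h1 := hg ((K + 1) / c)
    rw [mul_div_cancel₀ _ hc.ne'] at h1
    rw [this] at e2
    have := le_abs_self g2
    linarith
  have hq0 : q ≠ 0 := by
    rintro rfl
    obtain ⟨g1, g2, -, e2, e3, e4, -⟩ := h 0
    have K0 : 0 ≤ K := le_trans (abs_nonneg _) e4
    have f0 := hf 0
    set x := f 0 / (2 * K + 1) with hx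
    have x0 : 0 < x := by positivity
    obtain ⟨k1, k2, d1, d2, -, d4, -⟩ := h x
    have : k2 = 0 := by
      have : p * x * k2 = 0 := by linarith
      rcases mul_eq_zero.1 this with h | h
      · exact absurd h (mul_ne_zero hp0 x0.ne')
      · exact h
    have h1 := e3 x
    have h2 : x * (2 * K + 1) = f 0 := by rw [hx]; field_simp
    have h3 := le_abs_self k1
    have h4 := neg_abs_le g1
    nlinarith
  have hpos : 0 < p * q := by
    by_contra hn
    push Not at hn
    have hn' : p * q < 0 := lt_of_le_of_ne hn (mul_ne_zero hp0 hq0)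
    have h1 : 0 ≤ -q / p := by
      have : -q / p = -(p * q) / p ^ 2 := by field_simp
      rw [this]; apply div_nonneg (by linarith) (by positivity)
    obtain ⟨g1, g2, e1, e2, -⟩ := h (Real.sqrt (-q / p))
    have h2 : p * Real.sqrt (-q / p) ^ 2 + q = 0 := by rw [Real.sq_sqrt h1]; field_simp; ring
    have h3 : q * f (Real.sqrt (-q / p)) = 0 := by
      rw [← e2]; linear_combination (Real.sqrt (-q / p)) * e1 + g2 * h2
    exact mul_ne_zero hq0 (hf _).ne' h3
  have hp : 0 < p := by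
    by_contra hn
    push Not at hn
    have : 0 < q := by linarith
    nlinarith
  have hq : 0 < q := by
    by_contra hn
    push Not at hn
    nlinarith
  have Q0 : ∀ x : ℝ, 0 < p * x ^ 2 + q := fun x => by positivity
  have key : ∀ x x', f x * (p * x * x' + q) ≤ f x' * (p * x ^ 2 + q) := by
    intro x x'
    obtain ⟨g1, g2, e1, e2, e3, -⟩ := h x
    have h1 := mul_le_mul_of_nonneg_right (e3 x') (Q0 x).le
    have : f x * (p * x * x' + q) = (x' * g1 + g2) * (p * x ^ 2 + q) := by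
      rw [← e2]; linear_combination (x - x') * e1
    linarith
  have tel := telM (H := fun x => f x ^ 2 / (p * x ^ 2 + q)) (κ := p / q) (by positivity)
    (fun x => by have := Q0 x; positivity) (by
      intro x x' hs
      have q1 := Q0 x
      have q2 := Q0 x'
      have hs' : p * (x - x') ^ 2 ≤ q := by
        rw [div_mul_eq_mul_div, div_le_one hq] at hs; exact hs
      have B0 : 0 ≤ p * x * x' + q := by nlinarith [sq_nonneg (x + x')]
      have h1 : (f x * (p * x * x' + q)) ^ 2 ≤ (f x' * (p * x ^ 2 + q)) ^ 2 :=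
        pow_le_pow_left₀ (mul_nonneg (hf x).le B0) (key x x') 2
      have h2 : (p * x ^ 2 + q) * (p * x' ^ 2 + q) * (1 - p / q * (x - x') ^ 2) ≤
          (p * x * x' + q) ^ 2 := by
        have h3 : q * q ≤ (p * x ^ 2 + q) * (p * x' ^ 2 + q) := by
          apply mul_le_mul <;> nlinarith [sq_nonneg x, sq_nonneg x']
        have h4 : q * q * (p / q * (x - x') ^ 2) ≤
            (p * x ^ 2 + q) * (p * x' ^ 2 + q) * (p / q * (x - x') ^ 2) :=
          mul_le_mul_of_nonneg_right h3 (by positivity)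
        have h5 : q * q * (p / q * (x - x') ^ 2) = p * q * (x - x') ^ 2 := by field_simp
        nlinarith
      show f x ^ 2 / (p * x ^ 2 + q) * (1 - p / q * (x - x') ^ 2) ≤ f x' ^ 2 / (p * x' ^ 2 + q)
      rw [div_mul_eq_mul_div, div_le_div_iff₀ q1 q2]
      apply le_of_mul_le_mul_right _ q1
      have h6 := mul_le_mul_of_nonneg_left h2 (sq_nonneg (f x))
      nlinarith)
  refine ⟨f 0 ^ 2 / q * p, f 0 ^ 2, fun x => ?_⟩
  have h1 := le_antisymm (tel x 0) (tel 0 x)
  have q1 := Q0 x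
  simp at h1
  field_simp at h1 ⊢
  linarith

lemma telA {R σ : ℝ → ℝ} (h : ∀ s t, 0 < s → s ≤ t → R t - R s ≤ (σ s - σ t) * (t - s))
    {x y : ℝ} (hx : 0 < x) (hxy : x ≤ y) : R y ≤ R x := by
  have : R y - R x ≤ 0 := by
    apply le_of_div_nat (c := (σ x - σ y) * (y - x)) 0
    intro n _
    have n0 : (0 : ℝ) < (n : ℝ) + 1 := by positivity
    set d := (y - x) / ((n : ℝ) + 1) with hd
    have d0 : 0 ≤ d := div_nonneg (by linarith) n0.le
    have ind : ∀ k : ℕ, R (x + k * d) - R x ≤ (σ x - σ (x + k * d)) * d := by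
      intro k
      induction k with
      | zero => simp
      | succ k ih =>
        have h1 := h (x + k * d) (x + ((k + 1 : ℕ) : ℝ) * d) (by positivity)
          (by push_cast; nlinarith)
        have e : x + ((k + 1 : ℕ) : ℝ) * d - (x + k * d) = d := by push_cast; ring
        rw [e] at h1
        linarith
    have h2 := ind (n + 1)
    have e2 : x + ((n + 1 : ℕ) : ℝ) * d = y := by rw [hd]; push_cast; field_simp; ring
    rw [e2, hd] at h2
    calc R y - R x ≤ _ := h2
      _ = _ := by field_simp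
  linarith

lemma ratio_const {f g σ : ℝ → ℝ} (hf : ∀ x, 0 < x → 0 < f x) (hg : ∀ x, 0 < x → 0 < g x)
    (h1 : ∀ x x', 0 < x → 0 < x' → f x' ≤ f x * (1 + σ x * (x' - x)))
    (h2 : ∀ x x', 0 < x → 0 < x' → g x' ≤ g x * (1 + σ x * (x' - x))) :
    ∃ c : ℝ, 0 < c ∧ ∀ x, 0 < x → g x = c * f x := by
  have key : ∀ {f g : ℝ → ℝ}, (∀ x, 0 < x → 0 < f x) → (∀ x, 0 < x → 0 < g x) →
      (∀ x x', 0 < x → 0 < x' → f x' ≤ f x * (1 + σ x * (x' - x))) →
      (∀ x x', 0 < x → 0 < x' → g x' ≤ g x * (1 + σ x * (x' - x))) →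
      ∀ x y, 0 < x → x ≤ y → Real.log (f y) - Real.log (g y) ≤ Real.log (f x) - Real.log (g x) := by
    intro f g hf hg h1 h2 x y hx hxy
    apply telA (R := fun x => Real.log (f x) - Real.log (g x)) (σ := σ) _ hx hxy
    intro s t hs hst
    have ht : 0 < t := by linarith
    have lg : ∀ {a b e : ℝ}, 0 < a → 0 < b → a ≤ b * (1 + e) → Real.log a - Real.log b ≤ e := by
      intro a b e ha hb h
      rw [← Real.log_div ha.ne' hb.ne']
      have h3 := Real.log_le_sub_one_of_pos (div_pos ha hb)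
      have h4 : a / b ≤ 1 + e := by rw [div_le_iff₀ hb]; linarith
      linarith
    have k1 := lg (hf t ht) (hf s hs) (h1 s t hs ht)
    have k2 := lg (hg s hs) (hg t ht) (h2 t s ht hs)
    show Real.log (f t) - Real.log (g t) - (Real.log (f s) - Real.log (g s)) ≤ _
    nlinarith
  have eq : ∀ x y, 0 < x → x ≤ y → g y / f y = g x / f x := by
    intro x y hx hxy
    have hy : 0 < y := by linarith
    have k1 := key hf hg h1 h2 x y hx hxy
    have k2 := key hg hf h2 h1 x y hx hxy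
    apply Real.log_injOn_pos (div_pos (hg y hy) (hf y hy)) (div_pos (hg x hx) (hf x hx))
    rw [Real.log_div (hg y hy).ne' (hf y hy).ne', Real.log_div (hg x hx).ne' (hf x hx).ne']
    linarith
  refine ⟨g 1 / f 1, div_pos (hg 1 one_pos) (hf 1 one_pos), fun x hx => ?_⟩
  have : g x / f x = g 1 / f 1 := by
    rcases le_total x 1 with h | h
    · exact (eq x 1 hx h).symm
    · exact eq 1 x one_pos h
  rw [← this, div_mul_cancel₀ _ (hf x hx).ne']

/-- a function invariant under a contraction and Lipschitz at `0` is constant -/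
lemma iter_const {Δ : ℝ → ℝ} {r K : ℝ} (h0 : 0 < r) (h1 : r < 1)
    (h : ∀ y, 0 ≤ y → Δ (r * y) = Δ y) (hK : ∀ y, 0 ≤ y → |Δ y - Δ 0| ≤ K * y) {y : ℝ}
    (hy : 0 ≤ y) : Δ y = Δ 0 := by
  have ind : ∀ n : ℕ, Δ (r ^ n * y) = Δ y := by
    intro n
    induction n with
    | zero => simp
    | succ n ih => rw [pow_succ', mul_assoc, h _ (by positivity), ih]
  have t : Tendsto (fun n : ℕ => K * (r ^ n * y)) atTop (𝓝 (K * (0 * y))) :=
    ((tendsto_pow_atTop_nhds_zero_of_lt_one h0.le h1).mul_const y).const_mul K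
  have : |Δ y - Δ 0| ≤ K * (0 * y) :=
    ge_of_tendsto' t (fun n => by rw [← ind n]; exact hK _ (by positivity))
  simp at this
  linarith

end Pool.Agent.H.MP_2655df_gt
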