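import Pool.Agent.H.MP_2655df_gt.D
import Pool.Agent.H.MP_2655df_gt.E

set_option autoImplicit false

namespace Pool.Agent.H.MP_2655df_gt

open Filter Topology Set

variable {C : Set V}

noncomputable def G (C : Set V) (O w : V) : ℝ := M C O w + M C O (-w)

lemma Cone.ext_smul (hC : Cone C) {O u α : V} (hO : O ∈ C) (h : Ext C O u α) {s : ℝ} (hs : 0 < s) :
    Ext C O (s • u) α := ⟨h.1, by rw [dot_smul, h.2, hC.M_smul hO u hs]⟩

lemma Cone.ext_pair (hC : Cone C) {O u α β : V} (hO : O ∈ C) (h1 : Ext C O u α)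
    (h2 : Ext C O (-u) β) {s : ℝ} (hs : s ≠ 0) :
    ∃ α' β', Ext C O (s • u) α' ∧ Ext C O (-(s • u)) β' ∧ ∃ e : ℝ, e ≠ 0 ∧
      ∀ z, dot (α' - β') z = e * dot (α - β) z := by
  rcases lt_or_gt_of_ne hs with h | h
  · refine ⟨β, α, ?_, ?_, -1, by norm_num, fun z => by simp⟩
    · have := hC.ext_smul hO h2 (neg_pos.2 h)
      convert this using 1; module
    · have := hC.ext_smul hO h1 (neg_pos.2 h)
      convert this using 1; module
  · refine ⟨α, β, hC.ext_smul hO h1 h, ?_, 1, by norm_num, fun z => by simp⟩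
    have := hC.ext_smul hO h2 h
    convert this using 1; module

theorem Cone.T' (hC : Cone C) (hK : Conc C) {O u v : V} (hO : O ∈ C) (hdet : det3 O u v ≠ 0)
    {α₁ β₁ α₂ β₂ : V} (x1 : Ext C O u α₁) (y1 : Ext C O (-u) β₁) (x2 : Ext C O v α₂)
    (y2 : Ext C O (-v) β₂) {σ τ : ℝ} (hσ : σ ≠ 0) (hτ : τ ≠ 0) :
    ∃ α₃ β₃, Ext C O (τ • v - σ • u) α₃ ∧ Ext C O (-(τ • v - σ • u)) β₃ ∧
      dot (α₁ - β₁) v * dot (α₂ - β₂) (τ • v - σ • u) * dot (α₃ - β₃) u =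
        dot (α₂ - β₂) u * dot (α₁ - β₁) (τ • v - σ • u) * dot (α₃ - β₃) v := by
  obtain ⟨a1, b1, p1, q1, e1, he1, r1⟩ := hC.ext_pair hO x1 y1 hσ
  obtain ⟨a2, b2, p2, q2, e2, he2, r2⟩ := hC.ext_pair hO x2 y2 hτ
  have hd : det3 O (σ • u) (τ • v) ≠ 0 := by
    have : det3 O (σ • u) (τ • v) = σ * τ * det3 O u v := by simp [det3]; ring
    rw [this]; exact mul_ne_zero (mul_ne_zero hσ hτ) hdet
  obtain ⟨α₃, β₃, k1, k2, k3⟩ := hC.T hK hO hd p1 q1 p2 q2
  refine ⟨α₃, β₃, k1, k2, ?_⟩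
  rw [r1, r1, r2, r2, dot_smul _ v, dot_smul _ u, dot_smul _ u, dot_smul _ v] at k3
  apply mul_left_cancel₀ (mul_ne_zero (mul_ne_zero he1 he2) (mul_ne_zero hσ hτ))
  linear_combination k3

def TP (C : Set V) (O u v α₁ β₁ α₂ β₂ : V) : Prop :=
  ∀ σ τ : ℝ, σ ≠ 0 → τ ≠ 0 →
    ∃ α₃ β₃, Ext C O (τ • v - σ • u) α₃ ∧ Ext C O (-(τ • v - σ • u)) β₃ ∧
      dot (α₁ - β₁) v * dot (α₂ - β₂) (τ • v - σ • u) * dot (α₃ - β₃) u =
        dot (α₂ - β₂) u * dot (α₁ - β₁) (τ • v - σ • u) * dot (α₃ - β₃) v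

def TT (C : Set V) : Prop :=
  ∀ O ∈ C, ∀ u v : V, det3 O u v ≠ 0 → ∀ α₁ β₁ α₂ β₂ : V, Ext C O u α₁ → Ext C O (-u) β₁ →
    Ext C O v α₂ → Ext C O (-v) β₂ → TP C O u v α₁ β₁ α₂ β₂

theorem Cone.tt (hC : Cone C) (hK : Conc C) : TT C :=
  fun _ hO _ _ hdet _ _ _ _ x1 y1 x2 y2 _ _ hσ hτ => hC.T' hK hO hdet x1 y1 x2 y2 hσ hτ

lemma ext_G {O w α β : V} (h1 : Ext C O w α) (h2 : Ext C O (-w) β) :
    dot (α - β) w = G C O w := by
  have := h2.2
  rw [dot_neg] at this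
  rw [sub_dot, h1.2, G]; linarith

lemma Cone.le_G (hC : Cone C) {O α β : V} (hO : O ∈ C) (h1 : ND C O α) (h2 : ND C O β) (z : V) :
    dot (α - β) z ≤ G C O z := by
  have k1 := hC.M_ge hO h1 z
  have k2 := hC.M_ge hO h2 (-z)
  rw [dot_neg] at k2
  rw [sub_dot, G]; linarith

lemma G_neg (O w : V) : G C O (-w) = G C O w := by simp [G, add_comm]

lemma Cone.abs_le_G (hC : Cone C) {O α β : V} (hO : O ∈ C) (h1 : ND C O α) (h2 : ND C O β)
    (z : V) : |dot (α - β) z| ≤ G C O z := by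
  have k1 := hC.le_G hO h1 h2 z
  have k2 := hC.le_G hO h1 h2 (-z)
  rw [G_neg, dot_neg] at k2
  rw [abs_le]; constructor <;> linarith

lemma Cone.G_smul (hC : Cone C) {O : V} (hO : O ∈ C) (w : V) {s : ℝ} (hs : 0 < s) :
    G C O (s • w) = s * G C O w := by
  rw [G, G, ← smul_neg, hC.M_smul hO _ hs, hC.M_smul hO _ hs]; ring

lemma Cone.G_pos (hC : Cone C) {O u v : V} (hO : O ∈ C) (hdet : det3 O u v ≠ 0) :
    0 < G C O u := by
  by_contra h
  push Not at h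
  unfold G at h
  have key : ∀ t : ℝ, O + t • (M C O u • O - u) ∈ C := by
    intro t
    rcases lt_trichotomy t 0 with ht | ht | ht
    · have h1 := (hC.mem_iff hO (-u) (1 / (-t) - M C O u)).2 (by
        have : 0 < 1 / (-t) := one_div_pos.2 (by linarith)
        linarith)
      have h2 := hC.smul _ h1 (-t) (by linarith)
      convert h2 using 1
      have : -t * (1 / -t) = 1 := mul_one_div_cancel (by linarith)
      rw [smul_sub (-t), smul_smul, mul_sub, this]; module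
    · subst ht; simpa using hO
    · have h1 := (hC.mem_iff hO u (1 / t + M C O u)).2 (by
        have : 0 < 1 / t := one_div_pos.2 ht
        linarith)
      have h2 := hC.smul _ h1 t ht
      convert h2 using 1
      have : t * (1 / t) = 1 := mul_one_div_cancel ht.ne'
      rw [smul_sub t ((1 / t + M C O u) • O), smul_smul, mul_add, this]; module
  have hz : M C O u • O - u = 0 := by
    rcases le_total (M C O u • O - u).2 0 with h0 | h0
    · exact hC.line (fun t _ => key t) h0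
    · have : -(M C O u • O - u) = 0 := by
        apply hC.line (a := O)
        · intro t _
          have := key (-t)
          convert this using 1; module
        · simpa using h0
      exact neg_eq_zero.1 this
  apply hdet
  rw [← sub_eq_zero.1 hz]
  simp [det3]; ring

theorem Cone.sym (hC : Cone C) (hK : TT C) {O u v : V} (hO : O ∈ C) (hdet : det3 O u v ≠ 0)
    {α₁ β₁ α₂ β₂ : V} (x1 : Ext C O u α₁) (y1 : Ext C O (-u) β₁) (x2 : Ext C O v α₂)
    (y2 : Ext C O (-v) β₂) (h0 : dot (α₁ - β₁) v = 0) : dot (α₂ - β₂) u = 0 := by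
  by_contra hne
  have gu := hC.G_pos hO hdet
  have gv : 0 < G C O v := hC.G_pos hO (v := u) (by
    intro h; apply hdet; unfold det3 at h ⊢; linarith)
  have b2 := hC.abs_le_G hO x2.1 y2.1 u
  set τ := (2 * G C O u + 1) / G C O v with hτ
  have τ0 : 0 < τ := by positivity
  obtain ⟨α₃, β₃, k1, k2, k3⟩ := hK O hO u v hdet _ _ _ _ x1 y1 x2 y2 1 τ one_ne_zero τ0.ne'
  have e1 : dot (α₁ - β₁) (τ • v - (1 : ℝ) • u) = - G C O u := by
    rw [dot_sub, dot_smul, dot_smul, h0, ext_G x1 y1]; ring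
  rw [h0, e1] at k3
  have e2 : dot (α₃ - β₃) v = 0 := by
    have : dot (α₂ - β₂) u * G C O u * dot (α₃ - β₃) v = 0 := by linarith
    rcases mul_eq_zero.1 this with h | h
    · exact absurd h (mul_ne_zero hne gu.ne')
    · exact h
  have e3 := ext_G k1 k2
  have e4 := hC.le_G hO x2.1 y2.1 (τ • v - (1 : ℝ) • u)
  rw [← e3, dot_sub, dot_sub, dot_smul, dot_smul, dot_smul, dot_smul, e2, ext_G x2 y2] at e4
  have b3 := hC.abs_le_G hO k1.1 k2.1 u
  have e5 : τ * G C O v = 2 * G C O u + 1 := by rw [hτ]; field_simp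
  have := le_abs_self (dot (α₂ - β₂) u)
  have := neg_abs_le (dot (α₃ - β₃) u)
  linarith

theorem Cone.quad0 (hC : Cone C) {O u v : V} (hO : O ∈ C) (hdet : det3 O u v ≠ 0)
    {α₁ β₁ α₂ β₂ : V} (x1 : Ext C O u α₁) (y1 : Ext C O (-u) β₁) (h0 : dot (α₁ - β₁) v = 0)
    (x2 : Ext C O (u + v) α₂) (y2 : Ext C O (-(u + v)) β₂)
    (hK : TP C O u (u + v) α₁ β₁ α₂ β₂) :
    ∃ l₁ l₂ : ℝ, ∀ x : ℝ, G C O (x • u + v) ^ 2 = l₁ * x ^ 2 + l₂ := by
  have gu := hC.G_pos hO hdet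
  have gx : ∀ x : ℝ, 0 < G C O (x • u + v) := fun x => hC.G_pos hO (v := u) (by
    intro h; apply hdet; simp [det3] at h ⊢; linarith)
  have ju := ext_G x1 y1
  apply quadR (p := dot (α₂ - β₂) u) (q := dot (α₂ - β₂) v) (K := max (G C O u) (G C O v))
    (c := G C O u) _ gx gu
  · intro x
    have := hC.le_G hO x1.1 y1.1 (x • u + v)
    rw [dot_add, dot_smul, h0, ju] at this; linarith
  · have fin : ∀ (x : ℝ) (α₃ β₃ : V), Ext C O (x • u + v) α₃ → Ext C O (-(x • u + v)) β₃ →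
        dot (α₂ - β₂) v * dot (α₃ - β₃) u = dot (α₂ - β₂) u * x * dot (α₃ - β₃) v →
        ∃ g1 g2 : ℝ, dot (α₂ - β₂) v * g1 = dot (α₂ - β₂) u * x * g2 ∧
          x * g1 + g2 = G C O (x • u + v) ∧ (∀ x' : ℝ, x' * g1 + g2 ≤ G C O (x' • u + v)) ∧
          |g1| ≤ max (G C O u) (G C O v) ∧ |g2| ≤ max (G C O u) (G C O v) := by
      intro x α₃ β₃ k1 k2 k3
      refine ⟨_, _, k3, ?_, fun x' => ?_, ?_, ?_⟩
      · rw [← ext_G k1 k2, dot_add, dot_smul]
      · have := hC.le_G hO k1.1 k2.1 (x' • u + v)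
        rwa [dot_add, dot_smul] at this
      · exact le_trans (hC.abs_le_G hO k1.1 k2.1 u) (le_max_left _ _)
      · exact le_trans (hC.abs_le_G hO k1.1 k2.1 v) (le_max_right _ _)
    intro x
    by_cases hx : x = 1
    · subst hx
      exact fin 1 α₂ β₂ (by simpa using x2) (by rw [one_smul]; exact y2) (by ring)
    · obtain ⟨α₃, β₃, k1, k2, k3⟩ := hK (1 - x) 1 (sub_ne_zero.2 (Ne.symm hx)) one_ne_zero
      have e : (1 : ℝ) • (u + v) - (1 - x) • u = x • u + v := by module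
      rw [e] at k1 k2 k3
      refine fin x α₃ β₃ k1 k2 ?_
      simp only [dot_add, dot_smul, h0, ju] at k3
      apply mul_left_cancel₀ gu.ne'
      linear_combination k3
  · rw [← dot_add, ext_G x2 y2]
    simpa using gx 1

theorem Cone.quad (hC : Cone C) (hK : TT C) {O u v : V} (hO : O ∈ C) (hdet : det3 O u v ≠ 0)
    {α₁ β₁ : V} (x1 : Ext C O u α₁) (y1 : Ext C O (-u) β₁) (h0 : dot (α₁ - β₁) v = 0) :
    ∃ l₁ l₂ : ℝ, ∀ x : ℝ, G C O (x • u + v) ^ 2 = l₁ * x ^ 2 + l₂ := by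
  obtain ⟨α₂, x2⟩ : ∃ α, Ext C O (u + v) α := hC.M_att hO _
  obtain ⟨β₂, y2⟩ : ∃ α, Ext C O (-(u + v)) α := hC.M_att hO _
  have hd : det3 O u (u + v) ≠ 0 := by
    intro h; apply hdet; simp [det3] at h ⊢; linarith
  exact hC.quad0 hO hdet x1 y1 h0 x2 y2 (hK O hO _ _ hd _ _ _ _ x1 y1 x2 y2)

end Pool.Agent.H.MP_2655df_gt
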