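import Pool.Agent.H.MP_2655df_gt.F

set_option autoImplicit false

namespace Pool.Agent.H.MP_2655df_gt

open Filter Topology Set

variable {C : Set V}

structure Fr (C : Set V) (A B P α β : V) : Prop where
  ha : Adm C α
  hb : Adm C β
  aA : dot α A = 0
  aB : dot α B = 1
  aP : dot α P = 0
  bA : dot β A = 1
  bB : dot β B = 0
  bP : dot β P = 0
  ne : P ≠ 0
  mem : ∀ a b : ℝ, 0 < a → 0 < b → a • A + b • B ∈ C

variable {A B P α β : V}

lemma Fr.neg (h : Fr C A B P α β) : Fr C A B (-P) α β :=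
  ⟨h.ha, h.hb, h.aA, h.aB, by simp [h.aP], h.bA, h.bB, by simp [h.bP], neg_ne_zero.2 h.ne, h.mem⟩

lemma Fr.det (h : Fr C A B P α β) : det3 A B P ≠ 0 := by
  intro h0
  have e : det3 α β P * det3 A B P = det3 ((dot α A, dot α B), dot α P)
      ((dot β A, dot β B), dot β P) ((dot P A, dot P B), dot P P) := by
    simp only [det3, dot]; ring
  rw [h0, h.aA, h.aB, h.aP, h.bA, h.bB, h.bP] at e
  simp [det3, dot] at e
  apply h.ne
  ext <;> simp <;> nlinarith [sq_nonneg P.1.1, sq_nonneg P.1.2, sq_nonneg P.2]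

lemma Fr.pos (h : Fr C A B P α β) {a b y : ℝ} (hm : a • A + b • B + y • P ∈ C) :
    0 < a ∧ 0 < b := by
  have h1 := h.ha _ hm
  have h2 := h.hb _ hm
  simp [h.aA, h.aB, h.aP, h.bA, h.bB, h.bP] at h1 h2
  exact ⟨h2, h1⟩

lemma Fr.mem_iff (h : Fr C A B P α β) (a b : ℝ) : a • A + b • B ∈ C ↔ 0 < a ∧ 0 < b :=
  ⟨fun hm => h.pos (y := 0) (by simpa using hm), fun hm => h.mem a b hm.1 hm.2⟩

lemma Fr.ext (hC : Cone C) (h : Fr C A B P α β) {a b : ℝ} (ha : 0 < a) (hb : 0 < b) :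
    Ext C (a • A + b • B) A (a⁻¹ • β) ∧ Ext C (a • A + b • B) (-A) (b⁻¹ • α) := by
  have hO := h.mem a b ha hb
  refine ⟨⟨⟨fun z hz => ?_, ?_⟩, ?_⟩, ⟨⟨fun z hz => ?_, ?_⟩, ?_⟩⟩
  · rw [smul_dot]; exact mul_pos (inv_pos.2 ha) (h.hb z hz)
  · simp [h.bA, h.bB, ha.ne']
  · rw [smul_dot, h.bA, mul_one]
    symm
    apply hC.M_eq hO
    intro t
    have e : t • (a • A + b • B) - A = (t * a - 1) • A + (t * b) • B := by module
    rw [e, h.mem_iff, inv_lt_iff_one_lt_mul₀ ha]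
    constructor
    · intro h1; linarith [h1.1]
    · intro h1
      have : 0 < t := by by_contra h2; push Not at h2; nlinarith
      exact ⟨by linarith, by positivity⟩
  · rw [smul_dot]; exact mul_pos (inv_pos.2 hb) (h.ha z hz)
  · simp [h.aA, h.aB, hb.ne']
  · rw [smul_dot, dot_neg, h.aA, neg_zero, mul_zero]
    symm
    apply hC.M_eq hO
    intro t
    have e : t • (a • A + b • B) - -A = (t * a + 1) • A + (t * b) • B := by module
    rw [e, h.mem_iff]
    constructor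
    · intro h1; exact (mul_pos_iff_of_pos_right hb).1 h1.2
    · intro h1; exact ⟨by positivity, by positivity⟩

lemma Fr.det' (h : Fr C A B P α β) {a b : ℝ} (hb : 0 < b) : det3 (a • A + b • B) A P ≠ 0 := by
  have : det3 (a • A + b • B) A P = -b * det3 A B P := by simp [det3]; ring
  rw [this]; exact mul_ne_zero (by linarith) h.det

lemma Fr.sym (hC : Cone C) (hK : TT C) (h : Fr C A B P α β) {a b : ℝ} (ha : 0 < a) (hb : 0 < b)
    {γ δ : V} (h1 : Ext C (a • A + b • B) (-P) γ) (h2 : Ext C (a • A + b • B) P δ) :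
    dot δ A = dot γ A := by
  obtain ⟨x1, y1⟩ := h.ext hC ha hb
  have := hC.sym hK (h.mem a b ha hb) (h.det' hb) x1 y1 h2 h1 (by simp [h.aP, h.bP])
  rw [sub_dot] at this; linarith

lemma Fr.Mpos (hC : Cone C) (hK : TT C) (h : Fr C A B P α β) {a b : ℝ} (ha : 0 < a)
    (hb : 0 < b) : 0 < M C (a • A + b • B) (-P) := by
  obtain ⟨x1, y1⟩ := h.ext hC ha hb
  have hO := h.mem a b ha hb
  have h0 := hC.M_ge hO x1.1 (-P)
  simp [h.bP] at h0
  rcases h0.eq_or_lt with h1 | h1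
  · exfalso
    obtain ⟨δ, hδ⟩ : ∃ δ, Ext C (a • A + b • B) P δ := hC.M_att hO _
    have k1 := h.sym hC hK ha hb (γ := a⁻¹ • β) ⟨x1.1, by simp [h.bP, ← h1]⟩ hδ
    have k2 := h.sym hC hK ha hb (γ := b⁻¹ • α) ⟨y1.1, by simp [h.aP, ← h1]⟩ hδ
    rw [k1] at k2
    simp [h.aA, h.bA, ha.ne'] at k2
  · exact h1

lemma Cone.M_base (hC : Cone C) {O : V} (hO : O ∈ C) (v : V) {s : ℝ} (hs : 0 < s) :
    M C (s • O) v = M C O v / s := by
  apply hC.M_eq (hC.smul _ hO s hs)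
  intro t
  rw [smul_smul, hC.mem_iff hO, div_lt_iff₀ hs]

lemma Fr.mem_up (hC : Cone C) (h : Fr C A B P α β) (a b : ℝ) {y : ℝ} (hy : 0 ≤ y) :
    a • A + b • B + y • P ∈ C ↔ 0 < a ∧ 0 < b ∧ y * M C (a • A + b • B) (-P) < 1 := by
  rcases hy.eq_or_lt with hy | hy
  · subst hy; simp [h.mem_iff]
  have key : 0 < a → 0 < b → (a • A + b • B + y • P ∈ C ↔ y * M C (a • A + b • B) (-P) < 1) := by
    intro ha hb
    have hO := h.mem a b ha hb
    have e : a • A + b • B + y • P = (1 : ℝ) • (a • A + b • B) - y • (-P) := by module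
    rw [e, hC.mem_iff hO, hC.M_smul hO _ hy]
  constructor
  · intro hm
    obtain ⟨ha, hb⟩ := h.pos hm
    exact ⟨ha, hb, (key ha hb).1 hm⟩
  · intro hm; exact (key hm.1 hm.2.1).2 hm.2.2

lemma Fr.conc (hC : Cone C) (hK : TT C) (h : Fr C A B P α β) {a a' : ℝ} (ha : 0 < a)
    (ha' : 0 < a') {γ : V} (h1 : Ext C (a • A + (1 : ℝ) • B) (-P) γ) :
    (M C (a' • A + (1 : ℝ) • B) (-P))⁻¹ ≤
      (M C (a • A + (1 : ℝ) • B) (-P))⁻¹ * (1 + dot γ A * (a' - a)) := by
  have p1 := h.Mpos hC hK ha one_pos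
  have p2 := h.Mpos hC hK ha' one_pos
  have k := hC.le_M (h.mem a' 1 ha' one_pos) h1.1.1 (-P)
  have e := h1.1.2
  rw [h1.2] at k
  simp only [dot_add, dot_smul] at k e
  rw [inv_mul_eq_div, le_div_iff₀ p1, inv_mul_le_iff₀ p2]
  have : 1 + dot γ A * (a' - a) = a' * dot γ A + 1 * dot γ B := by linarith
  rw [this]; exact k

lemma Fr.scale (hC : Cone C) (h : Fr C A B P α β) {a b : ℝ} (ha : 0 < a) (hb : 0 < b) (v : V) :
    M C (a • A + b • B) v = M C ((a / b) • A + (1 : ℝ) • B) v / b := by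
  rw [← hC.M_base (h.mem _ 1 (by positivity) one_pos) v hb, smul_add, smul_smul, smul_smul,
    mul_div_cancel₀ _ hb.ne', mul_one]

lemma Fr.const (hC : Cone C) (hK : TT C) (h : Fr C A B P α β) :
    ∃ c : ℝ, 0 < c ∧ ∀ a b : ℝ, 0 < a → 0 < b →
      M C (a • A + b • B) (-P) = c * M C (a • A + b • B) P := by
  have ex : ∀ a : ℝ, ∃ γ δ : V, 0 < a → Ext C (a • A + (1 : ℝ) • B) (-P) γ ∧
      Ext C (a • A + (1 : ℝ) • B) P δ := by
    intro a
    by_cases ha : 0 < a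
    · obtain ⟨γ, hγ⟩ := hC.M_att (h.mem a 1 ha one_pos) (-P)
      obtain ⟨δ, hδ⟩ := hC.M_att (h.mem a 1 ha one_pos) P
      exact ⟨γ, δ, fun _ => ⟨hγ, hδ⟩⟩
    · exact ⟨0, 0, fun h => absurd h ha⟩
  choose γ δ hγ using ex
  have mp : ∀ a b : ℝ, 0 < a → 0 < b → 0 < M C (a • A + b • B) P := fun a b ha hb => by
    simpa using h.neg.Mpos hC hK ha hb
  obtain ⟨c, c0, hc⟩ := ratio_const (f := fun a => (M C (a • A + (1 : ℝ) • B) (-P))⁻¹)
    (g := fun a => (M C (a • A + (1 : ℝ) • B) P)⁻¹) (σ := fun a => dot (γ a) A)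
    (fun a ha => inv_pos.2 (h.Mpos hC hK ha one_pos)) (fun a ha => inv_pos.2 (mp a 1 ha one_pos))
    (fun a a' ha ha' => h.conc hC hK ha ha' (hγ a ha).1)
    (fun a a' ha ha' => by
      have := h.neg.conc hC hK ha ha' (γ := δ a) (by simpa using (hγ a ha).2)
      rw [h.sym hC hK ha one_pos (hγ a ha).1 (hγ a ha).2] at this
      simpa using this)
  refine ⟨c, c0, fun a b ha hb => ?_⟩
  rw [h.scale hC ha hb, h.scale hC ha hb P]
  have k := hc (a / b) (by positivity)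
  have p1 := h.Mpos hC hK (a := a / b) (by positivity) one_pos
  have p2 := mp (a / b) 1 (by positivity) one_pos
  field_simp at k ⊢
  linarith

lemma Fr.flip (hC : Cone C) (h : Fr C A B P α β) {c : ℝ} (c0 : 0 < c)
    (hc : ∀ a b : ℝ, 0 < a → 0 < b → M C (a • A + b • B) (-P) = c * M C (a • A + b • B) P)
    (a b : ℝ) {y : ℝ} (hy : 0 ≤ y) :
    a • A + b • B + (-(c * y)) • P ∈ C ↔ a • A + b • B + y • P ∈ C := by
  have e : a • A + b • B + (-(c * y)) • P = a • A + b • B + (c * y) • (-P) := by module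
  rw [e, h.neg.mem_up hC a b (by positivity), h.mem_up hC a b hy, neg_neg]
  refine and_congr_right fun ha => and_congr_right fun hb => ?_
  rw [hc a b ha hb]
  constructor <;> intro h <;> linarith

/-- membership in the upper part when the upper arc is a conic -/
lemma Fr.conic (hC : Cone C) (h : Fr C A B P α β) {m : ℝ} (m0 : 0 < m)
    (hm : ∀ a : ℝ, 0 < a → M C (a • A + (1 : ℝ) • B) (-P) = m / Real.sqrt a)
    (a b : ℝ) {y : ℝ} (hy : 0 ≤ y) :
    a • A + b • B + y • P ∈ C ↔ 0 < a ∧ 0 < b ∧ (y * m) ^ 2 < a * b := by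
  rw [h.mem_up hC a b hy]
  refine and_congr_right fun ha => and_congr_right fun hb => ?_
  rw [h.scale hC ha hb, hm _ (by positivity)]
  have e : Real.sqrt (a / b) * b = Real.sqrt (a * b) := by
    rw [show a * b = a / b * b ^ 2 by field_simp, Real.sqrt_mul (by positivity),
      Real.sqrt_sq hb.le]
  have s0 : 0 < Real.sqrt (a * b) := by positivity
  rw [div_div, e, ← mul_div_assoc, div_lt_one s0, Real.lt_sqrt (by positivity)]

end Pool.Agent.H.MP_2655df_gt
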