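import Pool.Agent.H.MP_2655df_gt.G

set_option autoImplicit false

namespace Pool.Agent.H.MP_2655df_gt

open Filter Topology Set

variable {C : Set V} {A B P α β : V}

lemma Cone.M_add (hC : Cone C) {O : V} (hO : O ∈ C) (v w : V) :
    M C O (v + w) ≤ M C O v + M C O w := by
  obtain ⟨γ, h1, h2⟩ := hC.M_att hO (v + w)
  rw [← h2, dot_add]
  exact add_le_add (hC.M_ge hO h1 v) (hC.M_ge hO h1 w)

lemma Cone.M_lip (hC : Cone C) {O : V} (hO : O ∈ C) (v w : V) {y : ℝ} (hy : 0 ≤ y) :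
    |M C O (v - y • w) - M C O v| ≤ (|M C O w| + |M C O (-w)|) * y := by
  rcases hy.eq_or_lt with hy | hy
  · subst hy; simp
  have h1 := hC.M_add hO v (y • (-w))
  have h2 := hC.M_add hO (v - y • w) (y • w)
  rw [hC.M_smul hO _ hy] at h1 h2
  rw [smul_neg, ← sub_eq_add_neg] at h1
  rw [sub_add_cancel] at h2
  have a1 := mul_le_mul_of_nonneg_left (le_abs_self (M C O w)) hy.le
  have a2 := mul_le_mul_of_nonneg_left (le_abs_self (M C O (-w))) hy.le
  have a3 := mul_nonneg hy.le (abs_nonneg (M C O w))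
  have a4 := mul_nonneg hy.le (abs_nonneg (M C O (-w)))
  rw [abs_le]; constructor <;> linarith

lemma Fr.quad (hC : Cone C) (hK : TT C) (h : Fr C A B P α β) {a b : ℝ} (ha : 0 < a)
    (hb : 0 < b) : ∃ l₁ l₂ : ℝ, ∀ x y : ℝ, 0 < y →
      G C (a • A + b • B) (x • A + y • P) ^ 2 = l₁ * x ^ 2 + l₂ * y ^ 2 := by
  obtain ⟨x1, y1⟩ := h.ext hC ha hb
  have hO := h.mem a b ha hb
  obtain ⟨l₁, l₂, hl⟩ := hC.quad hK hO (h.det' hb) x1 y1 (by simp [h.aP, h.bP])
  refine ⟨l₁, l₂, fun x y hy => ?_⟩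
  have e : x • A + y • P = y • ((x / y) • A + P) := by
    rw [smul_add, smul_smul, mul_div_cancel₀ _ hy.ne']
  rw [e, hC.G_smul hO _ hy, mul_pow, hl]
  field_simp

lemma Fr.Mflip (hC : Cone C) (h : Fr C A B P α β) {c : ℝ} (c0 : 0 < c)
    (hc : ∀ a b : ℝ, 0 < a → 0 < b → M C (a • A + b • B) (-P) = c * M C (a • A + b • B) P)
    {a b : ℝ} (ha : 0 < a) (hb : 0 < b) (x : ℝ) {y : ℝ} (hy : 0 ≤ y) :
    G C (a • A + b • B) (x • A + (c * y) • P) =
      M C (a • A + b • B) (x • A - y • P) + M C (a • A + b • B) ((-x) • A - (c * y) • P) := by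
  have hO := h.mem a b ha hb
  unfold G
  congr 1
  · apply hC.M_eq hO
    intro t
    rw [← hC.mem_iff hO]
    have e1 : t • (a • A + b • B) - (x • A + (c * y) • P) =
        (t * a - x) • A + (t * b) • B + (-(c * y)) • P := by module
    have e2 : t • (a • A + b • B) - (x • A - y • P) =
        (t * a - x) • A + (t * b) • B + y • P := by module
    rw [e1, e2, h.flip hC c0 hc _ _ hy]
  · congr 1; module

lemma Fr.upper (hC : Cone C) (hK : TT C) (h : Fr C A B P α β) {c : ℝ} (c0 : 0 < c)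
    (hc : ∀ a b : ℝ, 0 < a → 0 < b → M C (a • A + b • B) (-P) = c * M C (a • A + b • B) P)
    (c1 : c ≠ 1) : ∃ m : ℝ, 0 < m ∧
      ∀ a : ℝ, 0 < a → M C (a • A + (1 : ℝ) • B) (-P) = m / Real.sqrt a := by
  have step : ∀ a b : ℝ, 0 < a → 0 < b →
      M C (a • A + (b + b / a) • B) (-P) = M C ((a + 1) • A + b • B) (-P) := by
    intro a b ha hb
    have hO := h.mem a b ha hb
    obtain ⟨l₁, l₂, hl⟩ := h.quad hC hK ha hb
    obtain ⟨x1, y1⟩ := h.ext hC ha hb
    set Δ : ℝ → ℝ := fun y => M C (a • A + b • B) ((1 : ℝ) • A - y • P) -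
      M C (a • A + b • B) ((-1 : ℝ) • A - y • P) with hΔ
    have inv : ∀ y, 0 ≤ y → Δ (c * y) = Δ y := by
      intro y hy
      rcases hy.eq_or_lt with hy | hy
      · subst hy; simp
      have cy : 0 < c * y := by positivity
      have k1 := hl 1 (c * y) cy
      have k2 := hl (-1) (c * y) cy
      have g1 := hC.abs_le_G hO x1.1 x1.1 ((1 : ℝ) • A + (c * y) • P)
      have g2 := hC.abs_le_G hO x1.1 x1.1 ((-1 : ℝ) • A + (c * y) • P)
      have k3 : G C (a • A + b • B) ((1 : ℝ) • A + (c * y) • P) =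
          G C (a • A + b • B) ((-1 : ℝ) • A + (c * y) • P) := by
        apply (pow_left_inj₀ (le_trans (abs_nonneg _) g1) (le_trans (abs_nonneg _) g2)
          two_ne_zero).1
        rw [k1, k2]; ring
      rw [h.Mflip hC c0 hc ha hb 1 hy.le, h.Mflip hC c0 hc ha hb (-1) hy.le, neg_neg] at k3
      simp only [hΔ]; linarith
    have lip : ∀ y, 0 ≤ y → |Δ y - Δ 0| ≤
        (2 * (|M C (a • A + b • B) P| + |M C (a • A + b • B) (-P)|)) * y := by
      intro y hy
      have k1 := hC.M_lip hO ((1 : ℝ) • A) P hy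
      have k2 := hC.M_lip hO ((-1 : ℝ) • A) P hy
      simp only [hΔ, zero_smul, sub_zero]
      rw [abs_le] at k1 k2 ⊢
      constructor <;> linarith [k1.1, k1.2, k2.1, k2.2]
    have cst : ∀ y, 0 ≤ y → Δ y = Δ 0 := by
      intro y hy
      rcases lt_or_gt_of_ne c1 with h1 | h1
      · exact iter_const c0 h1 inv lip hy
      · apply iter_const (r := c⁻¹) (inv_pos.2 c0) (inv_lt_one_of_one_lt₀ h1) _ lip hy
        intro y hy
        rw [← inv (c⁻¹ * y) (by positivity), ← mul_assoc, mul_inv_cancel₀ c0.ne', one_mul]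
    have d0 : Δ 0 = a⁻¹ := by
      have e1 := x1.2
      have e2 := y1.2
      simp [h.bA, h.aA] at e1 e2
      simp [hΔ, ← e1, ← e2]
    have eqv : ∀ y : ℝ, 0 ≤ y → (a • A + (b + b / a) • B + y • P ∈ C ↔
        (a + 1) • A + b • B + y • P ∈ C) := by
      intro y hy
      have k := cst y hy
      rw [d0] at k
      simp only [hΔ] at k
      have e1 : a • A + (b + b / a) • B + y • P =
          (1 + a⁻¹) • (a • A + b • B) - ((1 : ℝ) • A - y • P) := by
        have : (1 + a⁻¹) * a = a + 1 := by field_simp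
        rw [smul_add, smul_smul, this, div_eq_mul_inv]; module
      have e2 : (a + 1) • A + b • B + y • P =
          (1 : ℝ) • (a • A + b • B) - ((-1 : ℝ) • A - y • P) := by module
      rw [e1, e2, hC.mem_iff hO, hC.mem_iff hO]
      constructor <;> intro h <;> linarith
    have b1 : 0 < b + b / a := by positivity
    have a1 : 0 < a + 1 := by positivity
    have p1 := h.Mpos hC hK ha b1
    have p2 := h.Mpos hC hK a1 hb
    apply le_antisymm
    · by_contra hn
      push Not at hn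
      have k := eqv (M C (a • A + (b + b / a) • B) (-P))⁻¹ (by positivity)
      rw [h.mem_up hC _ _ (by positivity), h.mem_up hC _ _ (by positivity),
        inv_mul_cancel₀ p1.ne'] at k
      have := k.2 ⟨a1, hb, by rw [inv_mul_lt_iff₀ p1]; linarith⟩
      exact lt_irrefl _ this.2.2
    · by_contra hn
      push Not at hn
      have k := eqv (M C ((a + 1) • A + b • B) (-P))⁻¹ (by positivity)
      rw [h.mem_up hC _ _ (by positivity), h.mem_up hC _ _ (by positivity),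
        inv_mul_cancel₀ p2.ne'] at k
      have := k.1 ⟨ha, b1, by rw [inv_mul_lt_iff₀ p2]; linarith⟩
      exact lt_irrefl _ this.2.2
  have step2 : ∀ τ ρ : ℝ, 0 < τ → 1 < ρ →
      M C ((ρ ^ 2 * τ) • A + (1 : ℝ) • B) (-P) = M C (τ • A + (1 : ℝ) • B) (-P) / ρ := by
    intro τ ρ hτ hρ
    have r1 : 0 < ρ - 1 := by linarith
    have r0 : 0 < ρ := by linarith
    have ha : 0 < 1 / (ρ - 1) := by positivity
    have hb : 0 < 1 / (ρ - 1) / (ρ * τ) := by positivity
    have k := step _ _ ha hb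
    rw [h.scale hC ha (by positivity), h.scale hC (by positivity) hb] at k
    have e1 : 1 / (ρ - 1) / (1 / (ρ - 1) / (ρ * τ) + 1 / (ρ - 1) / (ρ * τ) / (1 / (ρ - 1))) = τ := by
      field_simp; ring
    have e2 : (1 / (ρ - 1) + 1) / (1 / (ρ - 1) / (ρ * τ)) = ρ ^ 2 * τ := by
      field_simp; ring
    have e3 : 1 / (ρ - 1) / (ρ * τ) + 1 / (ρ - 1) / (ρ * τ) / (1 / (ρ - 1)) =
        1 / (ρ - 1) / (ρ * τ) * ρ := by
      field_simp; ring
    rw [e1, e2, e3, div_eq_div_iff (by positivity) hb.ne'] at k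
    rw [eq_div_iff r0.ne']
    apply mul_right_cancel₀ hb.ne'
    linarith
  refine ⟨M C ((1 : ℝ) • A + (1 : ℝ) • B) (-P), h.Mpos hC hK one_pos one_pos, fun a ha => ?_⟩
  have s0 : 0 < Real.sqrt a := by positivity
  rcases lt_trichotomy a 1 with h1 | h1 | h1
  · have s1 : Real.sqrt a < 1 := by rw [Real.sqrt_lt' one_pos]; linarith
    have k := step2 a (Real.sqrt a)⁻¹ ha (one_lt_inv₀ s0 |>.2 s1)
    rw [inv_pow, Real.sq_sqrt ha.le, inv_mul_cancel₀ ha.ne'] at k
    rw [k]; field_simp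
  · subst h1; simp
  · have s1 : 1 < Real.sqrt a := by rw [Real.lt_sqrt one_pos.le]; linarith
    have k := step2 1 (Real.sqrt a) one_pos s1
    rwa [Real.sq_sqrt ha.le, mul_one] at k

theorem Fr.harm (hC : Cone C) (hK : TT C) (h : Fr C A B P α β) {a b : ℝ} (ha : 0 < a)
    (hb : 0 < b) : M C (a • A + b • B) (-P) = M C (a • A + b • B) P := by
  obtain ⟨c, c0, hc⟩ := h.const hC hK
  by_cases c1 : c = 1
  · rw [hc a b ha hb, c1, one_mul]
  exfalso
  obtain ⟨m, m0, hm⟩ := h.upper hC hK c0 hc c1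
  have hO := h.mem 1 1 one_pos one_pos
  have T : ∀ x y : ℝ, 0 < y → M C ((1 : ℝ) • A + (1 : ℝ) • B) (x • A - y • P) =
      (x + Real.sqrt (x ^ 2 + 4 * (y * m) ^ 2)) / 2 := by
    intro x y hy
    apply hC.M_eq hO
    intro t
    have e : t • ((1 : ℝ) • A + (1 : ℝ) • B) - (x • A - y • P) = (t - x) • A + t • B + y • P := by
      module
    rw [e, h.conic hC m0 hm _ _ hy.le]
    have ym : 0 < (y * m) ^ 2 := by positivity
    constructor
    · rintro ⟨h1, h2, h3⟩
      have : Real.sqrt (x ^ 2 + 4 * (y * m) ^ 2) < 2 * t - x := by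
        rw [Real.sqrt_lt' (by linarith)]; nlinarith
      linarith
    · intro h1
      have h2 : Real.sqrt (x ^ 2 + 4 * (y * m) ^ 2) < 2 * t - x := by linarith
      have h3 : |x| ≤ Real.sqrt (x ^ 2 + 4 * (y * m) ^ 2) := by
        apply Real.abs_le_sqrt; linarith
      have h4 := le_abs_self x
      have h5 := neg_abs_le x
      have h6 := abs_nonneg x
      rw [Real.sqrt_lt' (by linarith)] at h2
      have h7 : Real.sqrt (x ^ 2 + 4 * (y * m) ^ 2) < 2 * t - x := by linarith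
      refine ⟨by linarith, by linarith, by nlinarith⟩
  obtain ⟨l₁, l₂, hl⟩ := h.quad hC hK one_pos one_pos
  have y0 : 0 < 1 / (2 * m) := by positivity
  have key : ∀ x : ℝ, ∃ s1 s2 : ℝ, s1 ^ 2 = x ^ 2 + 1 ∧ s2 ^ 2 = x ^ 2 + c ^ 2 ∧
      (s1 + s2) ^ 2 = 4 * l₁ * x ^ 2 + 4 * l₂ * (c * (1 / (2 * m))) ^ 2 := by
    intro x
    have k := hl x (c * (1 / (2 * m))) (by positivity)
    rw [h.Mflip hC c0 hc one_pos one_pos x y0.le, T _ _ y0, T _ _ (by positivity)] at k
    have e1 : x ^ 2 + 4 * (1 / (2 * m) * m) ^ 2 = x ^ 2 + 1 := by field_simp; ring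
    have e2 : (-x) ^ 2 + 4 * (c * (1 / (2 * m)) * m) ^ 2 = x ^ 2 + c ^ 2 := by field_simp; ring
    rw [e1, e2] at k
    refine ⟨Real.sqrt (x ^ 2 + 1), Real.sqrt (x ^ 2 + c ^ 2), Real.sq_sqrt (by positivity),
      Real.sq_sqrt (by positivity), by linear_combination 4 * k⟩
  generalize 4 * l₂ * (c * (1 / (2 * m))) ^ 2 = L at key
  have poly : ∀ x : ℝ, 4 * ((x ^ 2 + 1) * (x ^ 2 + c ^ 2)) =
      ((4 * l₁ - 2) * x ^ 2 + (L - 1 - c ^ 2)) ^ 2 := by
    intro x
    obtain ⟨s1, s2, k1, k2, k3⟩ := key x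
    have : 2 * (s1 * s2) = (4 * l₁ - 2) * x ^ 2 + (L - 1 - c ^ 2) := by
      linear_combination k3 - k1 - k2
    rw [← this, ← k1, ← k2]; ring
  have p0 := poly 0
  have p1 := poly 1
  have p2 := poly 2
  generalize 4 * l₁ - 2 = u at p0 p1 p2
  generalize L - 1 - c ^ 2 = w at p0 p1 p2
  have q0 : w ^ 2 = 4 * c ^ 2 := by linarith
  have q2 : u ^ 2 = 4 := by linear_combination (-1 / 12 : ℝ) * p2 + (1 / 3 : ℝ) * p1 - (1 / 4 : ℝ) * p0
  have q1 : u * w = 2 * (1 + c ^ 2) := by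
    linear_combination (-1 / 2 : ℝ) * p1 - (1 / 2 : ℝ) * q2 - (1 / 2 : ℝ) * q0
  have q3 : (c ^ 2 - 1) ^ 2 = 0 := by
    have : (u * w) ^ 2 = u ^ 2 * w ^ 2 := by ring
    rw [q1, q2, q0] at this
    linear_combination (1 / 4 : ℝ) * this
  have q4 : c ^ 2 - 1 = 0 := pow_eq_zero_iff two_ne_zero |>.1 q3
  apply c1
  have : (c - 1) * (c + 1) = 0 := by linarith
  rcases mul_eq_zero.1 this with h | h <;> linarith

end Pool.Agent.H.MP_2655df_gt
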