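import Pool.Agent.H.MP_2655df_gt.H

set_option autoImplicit false

namespace Pool.Agent.H.MP_2655df_gt

open Filter Topology Set

variable {C : Set V} {A B P α β : V}

lemma Fr.nonneg (h : Fr C A B P α β) {γ : V} (hγ : Adm C γ) : 0 ≤ dot γ A ∧ 0 ≤ dot γ B := by
  have k : ∀ a b : ℝ, 0 < a → 0 < b → 0 < a * dot γ A + b * dot γ B := fun a b ha hb => by
    simpa using hγ _ (h.mem a b ha hb)
  have k1 := k 1 1 one_pos one_pos
  constructor
  · by_contra hn
    push Not at hn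
    have := k (dot γ B) (-dot γ A) (by linarith) (by linarith)
    linarith
  · by_contra hn
    push Not at hn
    have := k (-dot γ B) (dot γ A) (by linarith) (by linarith)
    linarith

lemma Fr.half (hC : Cone C) (hK : TT C) (h : Fr C A B P α β) {a : ℝ} (ha : 0 < a) {γ : V}
    (hγ : Ext C (a • A + (1 : ℝ) • B) (-P) γ) : dot γ A = 1 / (2 * a) := by
  have hO := h.mem a 1 ha one_pos
  obtain ⟨δ, hδ⟩ : ∃ δ, Ext C (a • A + (1 : ℝ) • B) P δ := hC.M_att hO _
  have sy := h.sym hC hK ha one_pos hγ hδ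
  have hm := h.harm hC hK ha one_pos
  have m0 := h.Mpos hC hK ha one_pos
  set m := M C (a • A + (1 : ℝ) • B) (-P) with hmd
  have g1 := hγ.1.2
  have g2 := hγ.2
  have d1 := hδ.1.2
  have d2 := hδ.2
  rw [← hm] at d2
  rw [← hmd] at g2
  simp only [dot_add, dot_smul, dot_neg, one_mul] at g1 g2 d1
  obtain ⟨n1, n2⟩ := h.nonneg hγ.1.1
  have gP : dot γ P = -m := by linarith
  have dB : dot δ B = dot γ B := by rw [sy] at d1; linarith
  have mi : m⁻¹ * m = 1 := inv_mul_cancel₀ m0.ne'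
  have fr : Fr C (a • A + (1 : ℝ) • B + m⁻¹ • P) (a • A + (1 : ℝ) • B - m⁻¹ • P)
      ((dot γ B * a) • A - (a * dot γ A) • B) ((1 / 2 : ℝ) • γ) ((1 / 2 : ℝ) • δ) := by
    refine ⟨fun z hz => ?_, fun z hz => ?_, ?_, ?_, ?_, ?_, ?_, ?_, ?_, ?_⟩
    · rw [smul_dot]; have := hγ.1.1 z hz; positivity
    · rw [smul_dot]; have := hδ.1.1 z hz; positivity
    · simp [gP]; linarith
    · simp [gP]; linarith
    · simp; ring
    · simp [d2, sy, dB]; linarith
    · simp [d2, sy, dB]; linarith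
    · simp [sy, dB]; ring
    · intro h0
      have e1 := congrArg (dot α) h0
      have e2 := congrArg (dot β) h0
      simp [h.aA, h.aB, h.bA, h.bB, ha.ne'] at e1 e2
      rw [e1, e2] at g1; simp at g1
    · intro s t hs ht
      have st : 0 < s + t := by linarith
      have sc : ∀ v, M C (((s + t) * a) • A + (s + t) • B) v =
          M C (a • A + (1 : ℝ) • B) v / (s + t) := by
        intro v
        rw [h.scale hC (by positivity) st, mul_div_cancel_left₀ _ st.ne']
      rcases le_total t s with hst | hst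
      · have e : s • (a • A + (1 : ℝ) • B + m⁻¹ • P) + t • (a • A + (1 : ℝ) • B - m⁻¹ • P) =
            ((s + t) * a) • A + (s + t) • B + ((s - t) * m⁻¹) • P := by module
        rw [e, h.mem_up hC _ _ (mul_nonneg (by linarith) (by positivity)), sc, ← hmd]
        refine ⟨by positivity, st, ?_⟩
        rw [← mul_div_assoc, mul_assoc, inv_mul_cancel₀ m0.ne', div_lt_one st]; linarith
      · have e : s • (a • A + (1 : ℝ) • B + m⁻¹ • P) + t • (a • A + (1 : ℝ) • B - m⁻¹ • P) =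
            ((s + t) * a) • A + (s + t) • B + ((t - s) * m⁻¹) • (-P) := by module
        rw [e, h.neg.mem_up hC _ _ (mul_nonneg (by linarith) (by positivity)), neg_neg, sc, ← hm]
        refine ⟨by positivity, st, ?_⟩
        rw [← mul_div_assoc, mul_assoc, inv_mul_cancel₀ m0.ne', div_lt_one st]; linarith
  have hh := fr.harm hC hK (a := 1 / 2) (b := 1 / 2) (by norm_num) (by norm_num)
  have e : (1 / 2 : ℝ) • (a • A + (1 : ℝ) • B + m⁻¹ • P) +
      (1 / 2 : ℝ) • (a • A + (1 : ℝ) • B - m⁻¹ • P) = a • A + (1 : ℝ) • B := by module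
  rw [e] at hh
  have k1 : M C (a • A + (1 : ℝ) • B) ((dot γ B * a) • A - (a * dot γ A) • B) = dot γ B := by
    apply hC.M_eq hO
    intro t
    have e : t • (a • A + (1 : ℝ) • B) - ((dot γ B * a) • A - (a * dot γ A) • B) =
        ((t - dot γ B) * a) • A + (t + a * dot γ A) • B := by module
    rw [e, h.mem_iff, mul_pos_iff_of_pos_right ha]
    have := mul_nonneg ha.le n1
    constructor
    · intro h; linarith [h.1]
    · intro h; constructor <;> linarith
  have k2 : M C (a • A + (1 : ℝ) • B) (-((dot γ B * a) • A - (a * dot γ A) • B)) =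
      a * dot γ A := by
    apply hC.M_eq hO
    intro t
    have e : t • (a • A + (1 : ℝ) • B) - -((dot γ B * a) • A - (a * dot γ A) • B) =
        ((t + dot γ B) * a) • A + (t - a * dot γ A) • B := by module
    rw [e, h.mem_iff, mul_pos_iff_of_pos_right ha]
    have := mul_nonneg ha.le n1
    constructor
    · intro h; linarith [h.2]
    · intro h; constructor <;> linarith
  rw [k1, k2] at hh
  field_simp
  linarith

lemma Fr.full (hC : Cone C) (hK : TT C) (h : Fr C A B P α β) :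
    ∃ m : ℝ, 0 < m ∧ ∀ a b y : ℝ,
      (a • A + b • B + y • P ∈ C ↔ 0 < a ∧ 0 < b ∧ (y * m) ^ 2 < a * b) := by
  obtain ⟨c, c0, hc⟩ := ratio_const (f := fun a => (M C (a • A + (1 : ℝ) • B) (-P))⁻¹)
    (g := fun a => Real.sqrt a) (σ := fun a => 1 / (2 * a))
    (fun a ha => inv_pos.2 (h.Mpos hC hK ha one_pos)) (fun a ha => Real.sqrt_pos.2 ha)
    (fun a a' ha ha' => by
      obtain ⟨γ, hγ⟩ : ∃ γ, Ext C (a • A + (1 : ℝ) • B) (-P) γ :=
        hC.M_att (h.mem a 1 ha one_pos) _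
      have := h.conc hC hK ha ha' hγ
      rwa [h.half hC hK ha hγ] at this)
    (fun a a' ha ha' => by
      have s1 := Real.sq_sqrt ha.le
      have s2 := Real.sq_sqrt ha'.le
      have s0 := Real.sqrt_pos.2 ha
      show Real.sqrt a' ≤ Real.sqrt a * (1 + 1 / (2 * a) * (a' - a))
      generalize Real.sqrt a = p at s1 s0
      generalize Real.sqrt a' = q at s2
      subst s1 s2
      have : p * (1 + 1 / (2 * p ^ 2) * (q ^ 2 - p ^ 2)) = q + (p - q) ^ 2 / (2 * p) := by
        field_simp; ring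
      rw [this]
      have : 0 ≤ (p - q) ^ 2 / (2 * p) := by positivity
      linarith)
  have hm : ∀ a : ℝ, 0 < a → M C (a • A + (1 : ℝ) • B) (-P) = c / Real.sqrt a := by
    intro a ha
    have k := hc a ha
    have p := h.Mpos hC hK ha one_pos
    rw [k]; field_simp
  refine ⟨c, c0, fun a b y => ?_⟩
  rcases le_total 0 y with hy | hy
  · exact h.conic hC c0 hm a b hy
  · have k := h.flip hC one_pos (fun a b ha hb => by rw [h.harm hC hK ha hb, one_mul]) a b
      (y := -y) (by linarith)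
    rw [one_mul, neg_neg] at k
    rw [k, h.conic hC c0 hm a b (by linarith)]
    have : (-y * c) ^ 2 = (y * c) ^ 2 := by ring
    rw [this]

lemma Cone.ex_fr (hC : Cone C) {O : V} (hO : O ∈ C) : ∃ A B P α β, Fr C A B P α β := by
  set u : V := ((1, 0), 0) with hu
  have hd : det3 O u ((0, 1), 0) ≠ 0 := by
    have := hC.pos O hO
    simp [det3, hu]; linarith
  have g0 := hC.G_pos hO hd
  obtain ⟨a, ha⟩ : ∃ a, Ext C O u a := hC.M_att hO _
  obtain ⟨b, hb⟩ : ∃ b, Ext C O (-u) b := hC.M_att hO _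
  have ch := hC.ch hO ha.1.1 hb.1.1 (by rw [ha.2, ha.1.2, mul_one]) (by rw [hb.2, hb.1.2, mul_one])
  have a1 := ha.1.2
  have a2 := ha.2
  have b1 := hb.1.2
  have b2 : dot b u = - M C O (-u) := by have := hb.2; rw [dot_neg] at this; linarith
  have e1 : dot b (M C O (-u) • O + u) = 0 := by simp [b1, b2]
  have e2 : dot b (M C O u • O - u) = G C O u := by simp [b1, b2, G]
  have e3 : dot a (M C O (-u) • O + u) = G C O u := by simp [a1, a2, G]; ring
  have e4 : dot a (M C O u • O - u) = 0 := by simp [a1, a2]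
  refine ⟨M C O (-u) • O + u, M C O u • O - u,
    ((a.1.2 * b.2 - a.2 * b.1.2, a.2 * b.1.1 - a.1.1 * b.2), a.1.1 * b.1.2 - a.1.2 * b.1.1),
    (G C O u)⁻¹ • b, (G C O u)⁻¹ • a, fun z hz => ?_, fun z hz => ?_, ?_, ?_, ?_, ?_, ?_, ?_, ?_,
    fun s t hs ht => ?_⟩
  · rw [smul_dot]; have := hb.1.1 z hz; positivity
  · rw [smul_dot]; have := ha.1.1 z hz; positivity
  · rw [smul_dot, e1, mul_zero]
  · rw [smul_dot, e2, inv_mul_cancel₀ g0.ne']
  · rw [smul_dot]; simp only [dot]; ring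
  · rw [smul_dot, e3, inv_mul_cancel₀ g0.ne']
  · rw [smul_dot, e4, mul_zero]
  · rw [smul_dot]; simp only [dot]; ring
  · intro h0
    have k1 : a.1.2 * b.2 - a.2 * b.1.2 = 0 := congrArg (fun v : V => v.1.1) h0
    have k2 : a.2 * b.1.1 - a.1.1 * b.2 = 0 := congrArg (fun v : V => v.1.2) h0
    have k3 : a.1.1 * b.1.2 - a.1.2 * b.1.1 = 0 := congrArg (fun v : V => v.2) h0
    have gen : ∀ X Y : V, dot a X * dot b Y = dot a Y * dot b X := by
      intro X Y
      simp only [dot]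
      linear_combination (X.1.2 * Y.2 - X.2 * Y.1.2) * k1 + (X.2 * Y.1.1 - X.1.1 * Y.2) * k2
        + (X.1.1 * Y.1.2 - X.1.2 * Y.1.1) * k3
    have := gen (M C O (-u) • O + u) (M C O u • O - u)
    rw [e1, e2, e3, e4] at this
    nlinarith
  · have e : s • (M C O (-u) • O + u) + t • (M C O u • O - u) =
        (s * M C O (-u) + t * M C O u) • O + (s - t) • u := by module
    rw [e]
    apply ch.2.2 <;> rw [← e, dot_add, dot_smul, dot_smul]
    · rw [e3, e4]; simpa using mul_pos hs g0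
    · rw [e1, e2]; simpa using mul_pos ht g0

lemma ellipse {Ω : Set (ℝ × ℝ)} (hC : Cone (cone Ω)) (hA : A.2 = 1) (hB : B.2 = 1)
    (hd : det3 A B P ≠ 0)
    (h : ∀ a b y : ℝ, (a • A + b • B + y • P ∈ cone Ω ↔ 0 < a ∧ 0 < b ∧ y ^ 2 < 4 * (a * b))) :
    ∃ f : (ℝ × ℝ) ≃ᵃ[ℝ] (ℝ × ℝ), Ω = f '' {p : ℝ × ℝ | p.1 ^ 2 + p.2 ^ 2 < 1} := by
  set p := P.2 with hp
  have side : ∀ e : ℝ, e ^ 2 = 1 → 0 < 1 + e * p := by
    intro e he
    by_contra hn
    push Not at hn
    have hz : (1 / 2 : ℝ) • A + (1 / 2 : ℝ) • B + e • P = 0 := by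
      apply hC.line (a := A + B)
      · intro t ht
        have e1 : A + B + t • ((1 / 2 : ℝ) • A + (1 / 2 : ℝ) • B + e • P) =
            (1 + t / 2) • A + (1 + t / 2) • B + (t * e) • P := by module
        rw [e1, h]
        refine ⟨by linarith, by linarith, ?_⟩
        rw [mul_pow, he]; nlinarith
      · simp [hA, hB]; linarith
    apply hd
    have e2 : A = -B - (2 * e) • P := by
      have : A = (2 : ℝ) • ((1 / 2 : ℝ) • A + (1 / 2 : ℝ) • B + e • P) - B - (2 * e) • P := by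
        module
      rw [hz] at this; rw [this]; module
    rw [e2]; simp [det3]; ring
  have s1 := side 1 (by norm_num)
  have s2 := side (-1) (by norm_num)
  have q0 : 0 < 1 - p ^ 2 := by nlinarith
  obtain ⟨r, r0, hr⟩ : ∃ r : ℝ, 0 < r ∧ r ^ 2 = 1 - p ^ 2 :=
    ⟨Real.sqrt (1 - p ^ 2), Real.sqrt_pos.2 q0, Real.sq_sqrt q0.le⟩
  set W0 : V := (1 / (2 * r ^ 2)) • (A + B) - (p / r ^ 2) • P with hW0
  set W1 : V := (1 / (2 * r)) • (A - B) with hW1
  set W2 : V := (1 / r ^ 2) • P - (p / (2 * r ^ 2)) • (A + B) with hW2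
  have z0 : W0.2 = 1 := by
    simp [hW0, hA, hB, ← hp]; field_simp; linarith
  have z1 : W1.2 = 0 := by simp [hW1, hA, hB]
  have z2 : W2.2 = 0 := by
    simp [hW2, hA, hB, ← hp]; field_simp; ring
  have dW : W1.1.1 * W2.1.2 - W1.1.2 * W2.1.1 ≠ 0 := by
    intro h0
    apply hd
    simp [hW1, hW2] at h0
    field_simp at h0
    simp only [det3, hA, hB, ← hp]
    linear_combination (-1 / 2 : ℝ) * h0
  let Lm : (ℝ × ℝ) →ₗ[ℝ] (ℝ × ℝ) :=
    (LinearMap.fst ℝ ℝ ℝ).smulRight W1.1 + (LinearMap.snd ℝ ℝ ℝ).smulRight W2.1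
  have hL : ∀ z : ℝ × ℝ, Lm z = z.1 • W1.1 + z.2 • W2.1 := fun z => rfl
  have inj : Function.Injective Lm := by
    rw [injective_iff_map_eq_zero]
    intro z hz
    rw [hL] at hz
    have k1 : z.1 * W1.1.1 + z.2 * W2.1.1 = 0 := congrArg Prod.fst hz
    have k2 : z.1 * W1.1.2 + z.2 * W2.1.2 = 0 := congrArg Prod.snd hz
    ext
    · apply mul_right_cancel₀ dW
      simp only [Prod.fst_zero]; linear_combination W2.1.2 * k1 - W2.1.1 * k2
    · apply mul_right_cancel₀ dW
      simp only [Prod.snd_zero]; linear_combination W1.1.1 * k2 - W1.1.2 * k1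
  let f : (ℝ × ℝ) ≃ᵃ[ℝ] (ℝ × ℝ) :=
    (LinearEquiv.ofInjectiveEndo Lm inj).toAffineEquiv.trans (AffineEquiv.constVAdd ℝ (ℝ × ℝ) W0.1)
  have hf : ∀ z : ℝ × ℝ, f z = W0.1 + (z.1 • W1.1 + z.2 • W2.1) := fun z => rfl
  have key : ∀ z : ℝ × ℝ, f z ∈ Ω ↔ z.1 ^ 2 + z.2 ^ 2 < 1 := by
    rintro ⟨X, Y⟩
    have e1 : ((f (X, Y), 1) : V) = W0 + X • W1 + Y • W2 := by
      rw [hf]
      refine Prod.ext ?_ ?_
      · simp [add_assoc]
      · simp [z0, z1, z2]
    have e2 : W0 + X • W1 + Y • W2 = (((1 - p * Y) / r ^ 2 + X / r) / 2) • A +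
        (((1 - p * Y) / r ^ 2 - X / r) / 2) • B + ((Y - p) / r ^ 2) • P := by
      rw [hW0, hW1, hW2]
      match_scalars <;> field_simp <;> ring
    rw [← mem_cone, e1, e2, h]
    have e3 : 4 * ((((1 - p * Y) / r ^ 2 + X / r) / 2) * (((1 - p * Y) / r ^ 2 - X / r) / 2)) -
        ((Y - p) / r ^ 2) ^ 2 = (1 - (X ^ 2 + Y ^ 2)) / r ^ 2 := by
      field_simp
      linear_combination (-(1 - Y ^ 2) * 4) * hr
    constructor
    · rintro ⟨-, -, h3⟩
      have : 0 < (1 - (X ^ 2 + Y ^ 2)) / r ^ 2 := by linarith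
      have := (div_pos_iff_of_pos_right (by positivity)).1 this
      show X ^ 2 + Y ^ 2 < 1
      linarith
    · intro h3
      have h4 : X ^ 2 + Y ^ 2 < 1 := h3
      have h5 : 0 < (1 - (X ^ 2 + Y ^ 2)) / r ^ 2 := div_pos (by linarith) (by positivity)
      have h6 : 0 < (1 - p * Y) / r ^ 2 := by
        apply div_pos _ (by positivity)
        nlinarith [sq_nonneg X, sq_nonneg (p - Y)]
      have h7 := sq_nonneg ((Y - p) / r ^ 2)
      generalize (1 - p * Y) / r ^ 2 = s at e3 h6 ⊢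
      generalize X / r = ξ at e3 ⊢
      have h8 : 0 < (s + ξ) * (s - ξ) := by nlinarith
      have h9 : 0 < s + ξ := by by_contra hn; push Not at hn; nlinarith
      have h10 : 0 < s - ξ := by by_contra hn; push Not at hn; nlinarith
      exact ⟨by linarith, by linarith, by linarith⟩
  refine ⟨f, Set.ext fun x => ⟨fun hx => ⟨f.symm x, ?_, by simp⟩, ?_⟩⟩
  · exact (key _).1 (by simpa using hx)
  · rintro ⟨z, hz, rfl⟩; exact (key z).2 hz

theorem main {Ω : Set (ℝ × ℝ)} (hC : Cone (cone Ω)) (hK : TT (cone Ω)) (hne : Ω.Nonempty) :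
    ∃ f : (ℝ × ℝ) ≃ᵃ[ℝ] (ℝ × ℝ), Ω = f '' {p : ℝ × ℝ | p.1 ^ 2 + p.2 ^ 2 < 1} := by
  obtain ⟨o, ho⟩ := hne
  obtain ⟨A, B, P, α, β, h⟩ := hC.ex_fr ((mem_cone o).2 ho)
  obtain ⟨m, m0, hm⟩ := h.full hC hK
  have a0 : 0 < A.2 := by
    by_contra hn
    push Not at hn
    have : A = 0 := hC.line (a := A + B) (fun t ht => by
      have := h.mem (1 + t) 1 (by linarith) one_pos
      convert this using 1; module) hn
    have k := h.bA
    rw [this] at k; simp at k
  have b0 : 0 < B.2 := by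
    by_contra hn
    push Not at hn
    have : B = 0 := hC.line (a := A + B) (fun t ht => by
      have := h.mem 1 (1 + t) one_pos (by linarith)
      convert this using 1; module) hn
    have k := h.aB
    rw [this] at k; simp at k
  obtain ⟨r, r0, hr⟩ : ∃ r : ℝ, 0 < r ∧ r ^ 2 = A.2 * B.2 :=
    ⟨Real.sqrt (A.2 * B.2), by positivity, Real.sq_sqrt (by positivity)⟩
  apply ellipse hC (A := A.2⁻¹ • A) (B := B.2⁻¹ • B) (P := (2 * m * r)⁻¹ • P)
  · simp [a0.ne']
  · simp [b0.ne']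
  · have : det3 (A.2⁻¹ • A) (B.2⁻¹ • B) ((2 * m * r)⁻¹ • P) =
        A.2⁻¹ * B.2⁻¹ * (2 * m * r)⁻¹ * det3 A B P := by
      simp only [det3, Prod.smul_fst, Prod.smul_snd, smul_eq_mul]; ring
    rw [this]
    exact mul_ne_zero (by positivity) h.det
  · intro a b y
    rw [smul_smul, smul_smul, smul_smul, hm, mul_pos_iff_of_pos_right (inv_pos.2 a0),
      mul_pos_iff_of_pos_right (inv_pos.2 b0)]
    refine and_congr_right fun _ => and_congr_right fun _ => ?_
    have e1 : (y * (2 * m * r)⁻¹ * m) ^ 2 = y ^ 2 / (4 * r ^ 2) := by field_simp; ring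
    have e2 : a * A.2⁻¹ * (b * B.2⁻¹) = 4 * (a * b) / (4 * r ^ 2) := by rw [hr]; field_simp
    rw [e1, e2, div_lt_div_iff_of_pos_right (by positivity)]

end Pool.Agent.H.MP_2655df_gt
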